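import Mathlib

/-!
Expectation over a random subset, used for the Randomized King of the Hill analysis.
-/

namespace Pool.Agent.R19.KotH

open Finset

variable {ι : Type*} [DecidableEq ι]

/-- Expectation of `φ B` where the random subset `B ⊆ A` contains each `x ∈ A` independently with
probability `s x`. -/
noncomputable def Ex (s : ι → ℝ) (A : Finset ι) (φ : Finset ι → ℝ) : ℝ :=
  ∑ B ∈ A.powerset, (∏ x ∈ B, s x) * (∏ x ∈ A \ B, (1 - s x)) * φ B

@[simp] theorem Ex_empty (s : ι → ℝ) (φ : Finset ι → ℝ) : Ex s ∅ φ = φ ∅ := by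
  simp [Ex]

theorem Ex_insert {s : ι → ℝ} {A : Finset ι} {φ : Finset ι → ℝ} {a : ι} (ha : a ∉ A) :
    Ex s (insert a A) φ = s a * Ex s A (fun B => φ (insert a B)) + (1 - s a) * Ex s A φ := by
  unfold Ex
  rw [Finset.sum_powerset_insert ha, Finset.mul_sum, Finset.mul_sum, add_comm]
  congr 1
  · apply Finset.sum_congr rfl
    intro B hB
    have hB' : a ∉ B := fun h => ha (Finset.mem_powerset.mp hB h)
    rw [Finset.prod_insert hB']
    have : insert a A \ insert a B = A \ B := by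
      ext x; simp only [Finset.mem_sdiff, Finset.mem_insert]
      constructor
      · rintro ⟨h1 | h1, h2⟩
        · exact absurd (Or.inl h1) h2
        · exact ⟨h1, fun h => h2 (Or.inr h)⟩
      · rintro ⟨h1, h2⟩
        refine ⟨Or.inr h1, ?_⟩
        rintro (h | h)
        · exact ha (h ▸ h1)
        · exact h2 h
    rw [this]; ring
  · apply Finset.sum_congr rfl
    intro B hB
    have hB' : a ∉ B := fun h => ha (Finset.mem_powerset.mp hB h)
    have : insert a A \ B = insert a (A \ B) := by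
      rw [Finset.insert_sdiff_of_notMem _ hB']
    rw [this, Finset.prod_insert (by simp [ha])]; ring

theorem Ex_mem {s : ι → ℝ} {A : Finset ι} {φ : Finset ι → ℝ} {a : ι} (ha : a ∈ A) :
    Ex s A φ = s a * Ex s (A.erase a) (fun B => φ (insert a B)) + (1 - s a) * Ex s (A.erase a) φ := by
  conv_lhs => rw [← Finset.insert_erase ha]
  exact Ex_insert (Finset.notMem_erase a A)

theorem Ex_congr {s s' : ι → ℝ} {A : Finset ι} {φ φ' : Finset ι → ℝ}
    (hs : ∀ x ∈ A, s x = s' x) (hφ : ∀ B, B ⊆ A → φ B = φ' B) : Ex s A φ = Ex s' A φ' := by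
  unfold Ex
  apply Finset.sum_congr rfl
  intro B hB
  have hB' := Finset.mem_powerset.mp hB
  have h1 : ∏ x ∈ B, s x = ∏ x ∈ B, s' x := Finset.prod_congr rfl (fun x hx => hs x (hB' hx))
  have h2 : ∏ x ∈ A \ B, (1 - s x) = ∏ x ∈ A \ B, (1 - s' x) :=
    Finset.prod_congr rfl (fun x hx => by rw [hs x (Finset.mem_sdiff.mp hx).1])
  rw [hφ B hB', h1, h2]

theorem Ex_mono {s : ι → ℝ} {A : Finset ι} {φ φ' : Finset ι → ℝ}
    (h0 : ∀ x ∈ A, 0 ≤ s x) (h1 : ∀ x ∈ A, s x ≤ 1) (hφ : ∀ B, B ⊆ A → φ B ≤ φ' B) :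
    Ex s A φ ≤ Ex s A φ' := by
  unfold Ex
  apply Finset.sum_le_sum
  intro B hB
  have hB' := Finset.mem_powerset.mp hB
  apply mul_le_mul_of_nonneg_left (hφ B hB')
  apply mul_nonneg
  · exact Finset.prod_nonneg fun x hx => h0 x (hB' hx)
  · exact Finset.prod_nonneg fun x hx => by linarith [h1 x (Finset.mem_sdiff.mp hx).1]

theorem Ex_add (s : ι → ℝ) (A : Finset ι) (φ φ' : Finset ι → ℝ) :
    Ex s A (fun B => φ B + φ' B) = Ex s A φ + Ex s A φ' := by
  unfold Ex
  rw [← Finset.sum_add_distrib]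
  apply Finset.sum_congr rfl; intro B _; ring

theorem Ex_sub (s : ι → ℝ) (A : Finset ι) (φ φ' : Finset ι → ℝ) :
    Ex s A (fun B => φ B - φ' B) = Ex s A φ - Ex s A φ' := by
  unfold Ex
  rw [← Finset.sum_sub_distrib]
  apply Finset.sum_congr rfl; intro B _; ring

theorem Ex_mul (s : ι → ℝ) (A : Finset ι) (c : ℝ) (φ : Finset ι → ℝ) :
    Ex s A (fun B => c * φ B) = c * Ex s A φ := by
  unfold Ex
  rw [Finset.mul_sum]
  apply Finset.sum_congr rfl; intro B _; ring

theorem Ex_prod (s q : ι → ℝ) (A : Finset ι) :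
    Ex s A (fun B => ∏ x ∈ B, q x) = ∏ x ∈ A, (1 - s x * (1 - q x)) := by
  induction A using Finset.induction_on with
  | empty => simp
  | insert a A ha ih =>
    rw [Ex_insert ha, Finset.prod_insert ha, ih]
    have : Ex s A (fun B => ∏ x ∈ insert a B, q x) = q a * Ex s A (fun B => ∏ x ∈ B, q x) := by
      rw [← Ex_mul]
      apply Ex_congr (fun _ _ => rfl)
      intro B hB
      rw [Finset.prod_insert (fun h => ha (hB h))]
    rw [this, ih]; ring

theorem Ex_const (s : ι → ℝ) (A : Finset ι) (c : ℝ) : Ex s A (fun _ => c) = c := by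
  have h := Ex_prod s (fun _ => (1 : ℝ)) A
  have h2 : Ex s A (fun _ => (1 : ℝ)) = 1 := by simpa using h
  have h3 := Ex_mul s A c (fun _ => (1 : ℝ))
  simp only [mul_one] at h3
  rw [h3, h2, mul_one]

theorem Ex_sum (s a : ι → ℝ) (A : Finset ι) :
    Ex s A (fun B => ∑ x ∈ B, a x) = ∑ x ∈ A, s x * a x := by
  induction A using Finset.induction_on with
  | empty => simp
  | insert b A hb ih =>
    rw [Ex_insert hb, Finset.sum_insert hb, ih]
    have : Ex s A (fun B => ∑ x ∈ insert b B, a x) = a b + Ex s A (fun B => ∑ x ∈ B, a x) := by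
      have h := Ex_add s A (fun _ => a b) (fun B => ∑ x ∈ B, a x)
      rw [Ex_const] at h
      rw [← h]
      apply Ex_congr (fun _ _ => rfl)
      intro B hB
      rw [Finset.sum_insert (fun h => hb (hB h))]
    rw [this, ih]; ring

theorem Ex_le_const {s : ι → ℝ} {A : Finset ι} {φ : Finset ι → ℝ} {c : ℝ}
    (h0 : ∀ x ∈ A, 0 ≤ s x) (h1 : ∀ x ∈ A, s x ≤ 1) (hφ : ∀ B, B ⊆ A → φ B ≤ c) :
    Ex s A φ ≤ c := by
  rw [← Ex_const s A c]; exact Ex_mono h0 h1 hφ

theorem Ex_ge_const {s : ι → ℝ} {A : Finset ι} {φ : Finset ι → ℝ} {c : ℝ}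
    (h0 : ∀ x ∈ A, 0 ≤ s x) (h1 : ∀ x ∈ A, s x ≤ 1) (hφ : ∀ B, B ⊆ A → c ≤ φ B) :
    c ≤ Ex s A φ := by
  rw [← Ex_const s A c]; exact Ex_mono h0 h1 hφ

theorem Ex_isEmpty (s : ι → ℝ) (A : Finset ι) (c : ℝ) :
    Ex s A (fun B => if B = ∅ then c else 0) = c * ∏ x ∈ A, (1 - s x) := by
  induction A using Finset.induction_on with
  | empty => simp
  | insert a A ha ih =>
    rw [Ex_insert ha, Finset.prod_insert ha, ih]
    have : Ex s A (fun B => if insert a B = ∅ then c else 0) = 0 := by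
      have h := Ex_const s A 0
      refine Eq.trans (Ex_congr (fun _ _ => rfl) ?_) h
      intro B _
      simp
    rw [this]; ring

/-- deterministic collapse -/
theorem Ex_det (p : ι → Prop) [DecidablePred p] {s : ι → ℝ} {A : Finset ι} (φ : Finset ι → ℝ)
    (hs : ∀ x ∈ A, s x = if p x then 1 else 0) : Ex s A φ = φ (A.filter p) := by
  induction A using Finset.induction_on generalizing φ with
  | empty => simp
  | insert a A ha ih =>
    have hs' : ∀ x ∈ A, s x = if p x then 1 else 0 := fun x hx => hs x (Finset.mem_insert_of_mem hx)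
    rw [Ex_insert ha, ih _ hs', ih _ hs', hs a (Finset.mem_insert_self a A), Finset.filter_insert]
    by_cases h : p a <;> simp [h]

end Pool.Agent.R19.KotH
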