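import Mathlib
import Pool.Agent.R19.KotHEx

/-!
The function `g` (selection probability of a team with given head-to-head probabilities) and the
bounds on its one-team increments `δ`.
-/

namespace Pool.Agent.R19.KotH

open Finset

variable {ι : Type*} [DecidableEq ι]

/-- `g P q S`: probability that a team which beats `x ∈ S` with probability `q x` is selected among
itself and `S`, by the lazily sampled recursion. -/
noncomputable def g (P : ι → ι → ℝ) (q : ι → ℝ) (S : Finset ι) : ℝ :=
  (∏ x ∈ S, q x + ∑ y ∈ S, q y * Ex (fun x => P x y) (S.erase y)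
    (fun B => if _h : B.card < S.card then g P q B else 0)) / (S.card + 1)
termination_by S.card

theorem g_eq (P : ι → ι → ℝ) (q : ι → ℝ) (S : Finset ι) :
    (S.card + 1) * g P q S =
      ∏ x ∈ S, q x + ∑ y ∈ S, q y * Ex (fun x => P x y) (S.erase y) (g P q) := by
  rw [g]
  have h : ((S.card : ℝ) + 1) ≠ 0 := by positivity
  rw [mul_div_cancel₀ _ h]
  congr 1
  apply Finset.sum_congr rfl
  intro y hy
  congr 1
  apply Ex_congr (fun _ _ => rfl)
  intro B hB
  have : B.card < S.card := lt_of_le_of_lt (Finset.card_le_card hB) (Finset.card_erase_lt_of_mem hy)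
  simp [this]

@[simp] theorem g_empty (P : ι → ι → ℝ) (q : ι → ℝ) : g P q ∅ = 1 := by
  have := g_eq P q ∅
  simpa using this

theorem g_congr {P P' : ι → ι → ℝ} {q q' : ι → ℝ} {S : Finset ι}
    (hP : ∀ x ∈ S, ∀ y ∈ S, x ≠ y → P x y = P' x y) (hq : ∀ x ∈ S, q x = q' x) :
    g P q S = g P' q' S := by
  induction' hk : S.card using Nat.strong_induction_on with k ih generalizing S
  have h : ((S.card : ℝ) + 1) ≠ 0 := by positivity
  apply mul_left_cancel₀ h
  rw [g_eq, g_eq, Finset.prod_congr rfl hq]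
  congr 1
  apply Finset.sum_congr rfl
  intro y hy
  rw [hq y hy]
  congr 1
  apply Ex_congr
  · intro x hx
    exact hP x (Finset.mem_of_mem_erase hx) y hy (Finset.ne_of_mem_erase hx)
  · intro B hB
    have hBS : B ⊆ S := hB.trans (Finset.erase_subset _ _)
    exact ih B.card (hk ▸ lt_of_le_of_lt (Finset.card_le_card hB) (Finset.card_erase_lt_of_mem hy))
      (fun x hx z hz => hP x (hBS hx) z (hBS hz)) (fun x hx => hq x (hBS hx)) rfl

/-- `P` is a matrix of probabilities (off the diagonal) -/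
def PR (P : ι → ι → ℝ) (a b : ℝ) : Prop := ∀ x y, x ≠ y → a ≤ P x y ∧ P x y ≤ b

set_option linter.unusedSectionVars false
section basic
variable {P : ι → ι → ℝ} {q : ι → ℝ} (hP : PR P 0 1) (hq : ∀ x, 0 ≤ q x ∧ q x ≤ 1)
include hP hq

theorem Eg_mono {A : Finset ι} {y : ι} (hy : y ∉ A) {φ φ' : Finset ι → ℝ}
    (h : ∀ B, B ⊆ A → φ B ≤ φ' B) : Ex (fun x => P x y) A φ ≤ Ex (fun x => P x y) A φ' :=
  Ex_mono (fun x hx => (hP x y (fun e => hy (e ▸ hx))).1)
    (fun x hx => (hP x y (fun e => hy (e ▸ hx))).2) h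

theorem g_le_one (S : Finset ι) : g P q S ≤ 1 := by
  induction' hk : S.card using Nat.strong_induction_on with k ih generalizing S
  have h : (0 : ℝ) < ((S.card : ℝ) + 1) := by positivity
  have h1 : ((S.card : ℝ) + 1) * g P q S ≤ (S.card + 1) * 1 := by
    rw [g_eq]
    have h2 : ∏ x ∈ S, q x ≤ 1 := Finset.prod_le_one (fun x _ => (hq x).1) (fun x _ => (hq x).2)
    have h3 : ∑ y ∈ S, q y * Ex (fun x => P x y) (S.erase y) (g P q) ≤ ∑ y ∈ S, (1 : ℝ) := by
      apply Finset.sum_le_sum
      intro y hy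
      have h4 : Ex (fun x => P x y) (S.erase y) (g P q) ≤ 1 := by
        have := Eg_mono (P := P) (q := q) hP hq (A := S.erase y) (Finset.notMem_erase y S)
          (φ := g P q) (φ' := fun _ => 1) (fun B hB => ih B.card
            (hk ▸ lt_of_le_of_lt (Finset.card_le_card hB) (Finset.card_erase_lt_of_mem hy)) B rfl)
        rwa [Ex_const] at this
      calc q y * Ex (fun x => P x y) (S.erase y) (g P q) ≤ q y * 1 :=
            mul_le_mul_of_nonneg_left h4 (hq y).1
        _ ≤ 1 := by rw [mul_one]; exact (hq y).2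
    rw [Finset.sum_const, nsmul_eq_mul, mul_one] at h3
    linarith
  exact le_of_mul_le_mul_left h1 h

omit hP in
theorem prod_subset_le {A B : Finset ι} (h : B ⊆ A) : ∏ x ∈ A, q x ≤ ∏ x ∈ B, q x := by
  rw [← Finset.prod_sdiff h]
  have h1 : ∏ x ∈ A \ B, q x ≤ 1 := Finset.prod_le_one (fun x _ => (hq x).1) (fun x _ => (hq x).2)
  have h2 : 0 ≤ ∏ x ∈ B, q x := Finset.prod_nonneg fun x _ => (hq x).1
  nlinarith

theorem prod_le_g (S : Finset ι) : ∏ x ∈ S, q x ≤ g P q S := by
  induction' hk : S.card using Nat.strong_induction_on with k ih generalizing S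
  have h : (0 : ℝ) < ((S.card : ℝ) + 1) := by positivity
  have h1 : ((S.card : ℝ) + 1) * ∏ x ∈ S, q x ≤ (S.card + 1) * g P q S := by
    rw [g_eq]
    have h3 : ∑ y ∈ S, (∏ x ∈ S, q x) ≤ ∑ y ∈ S, q y * Ex (fun x => P x y) (S.erase y) (g P q) := by
      apply Finset.sum_le_sum
      intro y hy
      have h4 : ∏ x ∈ S.erase y, q x ≤ Ex (fun x => P x y) (S.erase y) (g P q) := by
        have := Eg_mono (P := P) (q := q) hP hq (A := S.erase y) (Finset.notMem_erase y S)
          (φ := fun _ => ∏ x ∈ S.erase y, q x) (φ' := g P q) (fun B hB => by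
            refine le_trans ?_ (ih B.card
              (hk ▸ lt_of_le_of_lt (Finset.card_le_card hB) (Finset.card_erase_lt_of_mem hy)) B rfl)
            exact prod_subset_le hq hB)
        rwa [Ex_const] at this
      rw [← Finset.mul_prod_erase S q hy]
      exact mul_le_mul_of_nonneg_left h4 (hq y).1
    rw [Finset.sum_const, nsmul_eq_mul] at h3
    linarith
  exact le_of_mul_le_mul_left h1 h

theorem g_nonneg (S : Finset ι) : 0 ≤ g P q S :=
  le_trans (Finset.prod_nonneg fun x _ => (hq x).1) (prod_le_g hP hq S)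

/-- Lemma 0 (b) -/
theorem h_ge (S : Finset ι) :
    ∑ x ∈ S, (1 - q x) + (1 - ∏ x ∈ S, q x) ≤ (S.card + 1) * (1 - g P q S) := by
  have h := g_eq P q S
  have h3 : ∑ y ∈ S, q y * Ex (fun x => P x y) (S.erase y) (g P q) ≤ ∑ y ∈ S, q y := by
    apply Finset.sum_le_sum
    intro y hy
    have h4 : Ex (fun x => P x y) (S.erase y) (g P q) ≤ 1 := by
      have := Eg_mono (P := P) (q := q) hP hq (A := S.erase y) (Finset.notMem_erase y S)
        (φ := g P q) (φ' := fun _ => 1) (fun B hB => g_le_one hP hq B)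
      rwa [Ex_const] at this
    calc q y * Ex (fun x => P x y) (S.erase y) (g P q) ≤ q y * 1 :=
          mul_le_mul_of_nonneg_left h4 (hq y).1
      _ = q y := mul_one _
  rw [Finset.sum_sub_distrib, Finset.sum_const, nsmul_eq_mul, mul_one]
  linarith

omit hP in
theorem one_sub_prod_le (S : Finset ι) : 1 - ∏ x ∈ S, q x ≤ ∑ x ∈ S, (1 - q x) := by
  induction S using Finset.induction_on with
  | empty => simp
  | insert a S ha ih =>
    rw [Finset.prod_insert ha, Finset.sum_insert ha]
    have h1 : ∏ x ∈ S, q x ≤ 1 := Finset.prod_le_one (fun x _ => (hq x).1) (fun x _ => (hq x).2)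
    nlinarith [(hq a).1, (hq a).2]

theorem h_le_sum (S : Finset ι) : 1 - g P q S ≤ ∑ x ∈ S, (1 - q x) :=
  le_trans (by linarith [prod_le_g hP hq S]) (one_sub_prod_le hq S)

theorem h_ge_avg (S : Finset ι) : ∑ x ∈ S, (1 - q x) ≤ S.card * (1 - g P q S) := by
  have h := h_ge hP hq S
  rcases S.eq_empty_or_nonempty with rfl | hne
  · simp
  have h1 : S.card * ∏ x ∈ S, q x ≤ ∑ x ∈ S, q x := by
    rw [← nsmul_eq_mul, ← Finset.sum_const]
    apply Finset.sum_le_sum
    intro y hy
    rw [← Finset.mul_prod_erase S q hy]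
    have : ∏ x ∈ S.erase y, q x ≤ 1 :=
      Finset.prod_le_one (fun x _ => (hq x).1) (fun x _ => (hq x).2)
    nlinarith [(hq y).1]
  have hc : (0 : ℝ) < S.card := by exact_mod_cast hne.card_pos
  rw [Finset.sum_sub_distrib, Finset.sum_const, nsmul_eq_mul, mul_one] at h ⊢
  -- k h ≥ k/(k+1) (ΣA + 1 - Π) and k(1-Π) ≥ ΣA
  have h2 : (S.card : ℝ) - ∑ x ∈ S, q x ≤ S.card * (1 - ∏ x ∈ S, q x) := by nlinarith
  have h3 : ((S.card : ℝ) + 1) * (S.card - ∑ x ∈ S, q x) ≤
      (S.card + 1) * (S.card * (1 - g P q S)) := by nlinarith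
  exact le_of_mul_le_mul_left h3 (by positivity)

end basic

/-- the increment -/
noncomputable def dl (P : ι → ι → ℝ) (q : ι → ℝ) (i : ι) (S : Finset ι) : ℝ :=
  g P (Function.update q i 1) (insert i S) - g P q S

theorem dl_empty (P : ι → ι → ℝ) (q : ι → ℝ) (i : ι) : dl P q i ∅ = 0 := by
  unfold dl
  have h := g_eq P (Function.update q i 1) (insert i ∅)
  simp at h
  simp
  linarith

theorem g_update_notMem {P : ι → ι → ℝ} {q : ι → ℝ} {i : ι} {S : Finset ι} (hi : i ∉ S) (t : ℝ) :
    g P (Function.update q i t) S = g P q S :=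
  g_congr (fun _ _ _ _ _ => rfl)
    (fun x hx => Function.update_of_ne (fun h : x = i => hi (h ▸ hx)) _ _)

/-- recursion for the increment -/
theorem dl_rec (P : ι → ι → ℝ) (q : ι → ℝ) {i : ι} {S : Finset ι} (hi : i ∉ S) :
    (S.card + 2) * dl P q i S = Ex (fun x => P x i) S (g P q) - g P q S +
      ∑ y ∈ S, q y * P i y * Ex (fun x => P x y) (S.erase y) (dl P q i) := by
  have h1 := g_eq P (Function.update q i 1) (insert i S)
  have h2 := g_eq P q S
  rw [Finset.card_insert_of_notMem hi, Finset.prod_insert hi, Finset.sum_insert hi,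
    Finset.erase_insert hi, Function.update_self, one_mul, one_mul] at h1
  have h3 : ∏ x ∈ S, Function.update q i 1 x = ∏ x ∈ S, q x :=
    Finset.prod_congr rfl fun x hx => Function.update_of_ne (fun h : x = i => hi (h ▸ hx)) _ _
  have h4 : Ex (fun x => P x i) S (g P (Function.update q i 1)) = Ex (fun x => P x i) S (g P q) :=
    Ex_congr (fun _ _ => rfl) (fun B hB => g_update_notMem (fun h => hi (hB h)) 1)
  have h5 : ∑ y ∈ S, Function.update q i 1 y *
      Ex (fun x => P x y) ((insert i S).erase y) (g P (Function.update q i 1)) =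
      ∑ y ∈ S, q y * Ex (fun x => P x y) (S.erase y) (g P q) +
      ∑ y ∈ S, q y * P i y * Ex (fun x => P x y) (S.erase y) (dl P q i) := by
    rw [← Finset.sum_add_distrib]
    apply Finset.sum_congr rfl
    intro y hy
    have hyi : y ≠ i := fun h => hi (h ▸ hy)
    have hiS : i ∉ S.erase y := fun h => hi (Finset.mem_of_mem_erase h)
    rw [Function.update_of_ne hyi, Finset.erase_insert_of_ne (Ne.symm hyi), Ex_insert hiS]
    have e1 : Ex (fun x => P x y) (S.erase y) (g P (Function.update q i 1)) =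
        Ex (fun x => P x y) (S.erase y) (g P q) :=
      Ex_congr (fun _ _ => rfl) (fun B hB => g_update_notMem (fun h => hiS (hB h)) 1)
    have e2 : Ex (fun x => P x y) (S.erase y) (dl P q i) =
        Ex (fun x => P x y) (S.erase y) (fun B => g P (Function.update q i 1) (insert i B)) -
        Ex (fun x => P x y) (S.erase y) (g P q) := by
      rw [← Ex_sub]; rfl
    rw [e1, e2]; ring
  rw [h3, h4, h5] at h1
  have h6 : dl P q i S = g P (Function.update q i 1) (insert i S) - g P q S := rfl
  rw [h6]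
  push_cast at h1
  linarith

end Pool.Agent.R19.KotH
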