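import Mathlib
import Pool.Agent.R19.KotHG

/-!
Bounds on the increment `dl`.
-/

namespace Pool.Agent.R19.KotH

open Finset

variable {ι : Type*} [DecidableEq ι]

theorem g_singleton (P : ι → ι → ℝ) (q : ι → ℝ) (y : ι) : g P q {y} = q y := by
  have h := g_eq P q {y}
  simp at h
  linarith

set_option linter.unusedSectionVars false
section bounds
variable {P : ι → ι → ℝ} {al be : ℝ} (hab : al + be = 1) (hbe : 0 ≤ be) (hle : be ≤ al)
  (hP : PR P be al) {q : ι → ℝ} (hq : ∀ x, 0 ≤ q x ∧ q x ≤ 1)
include hab hbe hle hP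

theorem PR01 : PR P 0 1 := fun x y h => ⟨hbe.trans (hP x y h).1, (hP x y h).2.trans (by linarith)⟩

include hq

/-- `k (1 - E g) ≥ be (1 - g)` -/
theorem Ei_le_k {i : ι} {S : Finset ι} (hi : i ∉ S) :
    be * (1 - g P q S) ≤ S.card * (1 - Ex (fun x => P x i) S (g P q)) := by
  have hP' := PR01 hab hbe hle hP
  have h1 : Ex (fun x => P x i) S (fun B => ∑ x ∈ B, (1 - q x)) ≤
      Ex (fun x => P x i) S (fun B => S.card * (1 - g P q B)) := by
    apply Eg_mono hP' hq hi
    intro B hB
    refine (h_ge_avg hP' hq B).trans ?_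
    apply mul_le_mul_of_nonneg_right
    · exact_mod_cast Finset.card_le_card hB
    · linarith [g_le_one hP' hq B]
  rw [Ex_sum, Ex_mul] at h1
  have h2 : Ex (fun x => P x i) S (fun B => 1 - g P q B) = 1 - Ex (fun x => P x i) S (g P q) := by
    have := Ex_sub (fun x => P x i) S (fun _ => (1 : ℝ)) (g P q)
    rwa [Ex_const] at this
  rw [h2] at h1
  refine le_trans ?_ h1
  calc be * (1 - g P q S) ≤ be * ∑ x ∈ S, (1 - q x) :=
        mul_le_mul_of_nonneg_left (h_le_sum hP' hq S) hbe
    _ = ∑ x ∈ S, be * (1 - q x) := Finset.mul_sum _ _ _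
    _ ≤ ∑ x ∈ S, P x i * (1 - q x) := by
        apply Finset.sum_le_sum
        intro x hx
        exact mul_le_mul_of_nonneg_right (hP x i (fun e => hi (e ▸ hx))).1 (by linarith [(hq x).2])

/-- inequality (4) -/
theorem key4 {i : ι} {S : Finset ι} (hi : i ∉ S) (hS : 1 ≤ S.card) :
    Ex (fun x => P x i) S (g P q) - g P q S ≤
      (1 - al * be) / 3 * (3 + be * (S.card - 1)) * (1 - g P q S) := by
  have hP' := PR01 hab hbe hle hP
  have hk := Ei_le_k hab hbe hle hP hq hi
  have hg1 : g P q S ≤ 1 := g_le_one hP' hq S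
  have hz : 0 ≤ al * be := mul_nonneg (by linarith) hbe
  have hal1 : al ≤ 1 := by linarith
  rcases Nat.lt_or_ge S.card 4 with h4 | h4
  · interval_cases hc : S.card
    · -- k = 1
      push_cast at hk ⊢
      have : (1 - be) * (1 - g P q S) ≤ (1 - al * be) * (1 - g P q S) :=
        mul_le_mul_of_nonneg_right (by nlinarith) (by linarith)
      nlinarith
    · -- k = 2
      obtain ⟨y, x, hyx, rfl⟩ := Finset.card_eq_two.mp hc
      have hyi : y ≠ i := fun e => hi (by simp [e])
      have hxi : x ≠ i := fun e => hi (by simp [e])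
      have e1 : Ex (fun z => P z i) {y, x} (g P q) =
          P y i * (P x i * g P q {y, x} + (1 - P x i) * q y) +
          (1 - P y i) * (P x i * q x + (1 - P x i) * 1) := by
        have hy : y ∉ ({x} : Finset ι) := by simpa using hyx
        rw [Ex_insert hy]
        have : ({x} : Finset ι) = insert x ∅ := rfl
        rw [this, Ex_insert (by simp), Ex_insert (by simp)]
        simp only [Ex_empty]
        rw [← this, ← g_singleton P q y, ← g_singleton P q x, g_empty]
        rfl
      have hsum := h_le_sum hP' hq {y, x}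
      rw [Finset.sum_pair hyx] at hsum
      have a1 := (hP y i hyi).1
      have a2 := (hP y i hyi).2
      have b1 := (hP x i hxi).1
      have b2 := (hP x i hxi).2
      have qy := hq y
      have qx := hq x
      set a := P y i
      set b := P x i
      set G := g P q {y, x}
      have key : be * (1 - G) ≤ a * b * (1 - G) + a * (1 - b) * (1 - q y) + (1 - a) * b * (1 - q x) := by
        have hG : 0 ≤ 1 - G := by linarith
        rcases le_total a b with h | h
        · have t1 : a * (1 - b) * (1 - G) ≤ a * (1 - b) * ((1 - q y) + (1 - q x)) :=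
            mul_le_mul_of_nonneg_left hsum (mul_nonneg (by linarith) (by linarith))
          have t2 : a * (1 - b) * (1 - q x) ≤ (1 - a) * b * (1 - q x) :=
            mul_le_mul_of_nonneg_right (by nlinarith) (by linarith [qx.2])
          have t3 : be * (1 - G) ≤ a * (1 - G) := mul_le_mul_of_nonneg_right a1 hG
          nlinarith
        · have t1 : (1 - a) * b * (1 - G) ≤ (1 - a) * b * ((1 - q y) + (1 - q x)) :=
            mul_le_mul_of_nonneg_left hsum (mul_nonneg (by linarith) (by linarith))
          have t2 : (1 - a) * b * (1 - q y) ≤ a * (1 - b) * (1 - q y) :=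
            mul_le_mul_of_nonneg_right (by nlinarith) (by linarith [qy.2])
          have t3 : be * (1 - G) ≤ b * (1 - G) := mul_le_mul_of_nonneg_right b1 hG
          nlinarith
      rw [e1]
      push_cast
      have hc2 : (1 - be) ≤ (1 - al * be) / 3 * (3 + be * (2 - 1)) := by
        nlinarith [mul_nonneg hbe (mul_nonneg (by linarith : 0 ≤ al) (by linarith : 0 ≤ 1 - be)),
          mul_nonneg hbe (by linarith : 0 ≤ 1 - al), mul_nonneg hbe hz, mul_nonneg hz hbe]
      have := mul_le_mul_of_nonneg_right hc2 (by linarith : 0 ≤ 1 - G)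
      nlinarith
    · -- k = 3
      push_cast at hk ⊢
      have hc3 : (1 - be / 3) ≤ (1 - al * be) / 3 * (3 + be * (3 - 1)) := by
        have : be * be * (3 - 2 * al) ≥ 0 := mul_nonneg (mul_nonneg hbe hbe) (by linarith)
        have e : al = 1 - be := by linarith
        subst e
        nlinarith
      have := mul_le_mul_of_nonneg_right hc3 (by linarith : 0 ≤ 1 - g P q S)
      nlinarith
  · have hc : (4 : ℝ) ≤ S.card := by exact_mod_cast h4
    have hE : Ex (fun x => P x i) S (g P q) ≤ 1 := by
      have := Eg_mono hP' hq hi (φ := g P q) (φ' := fun _ => 1) (fun B _ => g_le_one hP' hq B)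
      rwa [Ex_const] at this
    have h1 : 1 ≤ (1 - al * be) / 3 * (3 + be * (S.card - 1)) := by
      have t1 : al ≤ 1 - al * be := by nlinarith
      have t2 : 3 * al ≤ (1 - al * be) * (S.card - 1) := by nlinarith
      have t3 := mul_le_mul_of_nonneg_left t2 hbe
      nlinarith
    have := mul_le_mul_of_nonneg_right h1 (by linarith : 0 ≤ 1 - g P q S)
    linarith

/-- Lemma U -/
theorem lemU {i : ι} {S : Finset ι} (hi : i ∉ S) :
    dl P q i S ≤ (1 - al * be) / 3 * (1 - g P q S) := by
  have hP' := PR01 hab hbe hle hP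
  induction' hk : S.card using Nat.strong_induction_on with k ih generalizing S
  rcases Nat.eq_zero_or_pos k with h0 | hpos
  · have : S = ∅ := Finset.card_eq_zero.mp (by omega)
    subst this
    rw [dl_empty, g_empty]; simp
  have hz : 0 ≤ al * be := mul_nonneg (by linarith) hbe
  have hal0 : 0 ≤ al := by linarith
  have hc0 : 0 ≤ (1 - al * be) / 3 := by nlinarith
  set c := (1 - al * be) / 3 with hc
  have hrec := dl_rec P q hi
  have hsum : ∑ y ∈ S, q y * P i y * Ex (fun x => P x y) (S.erase y) (dl P q i) ≤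
      c * al * (∑ y ∈ S, q y - ∑ y ∈ S, q y * Ex (fun x => P x y) (S.erase y) (g P q)) := by
    rw [← Finset.sum_sub_distrib, Finset.mul_sum]
    apply Finset.sum_le_sum
    intro y hy
    have hyi : y ≠ i := fun e => hi (e ▸ hy)
    have hE1 : Ex (fun x => P x y) (S.erase y) (dl P q i) ≤
        c * (1 - Ex (fun x => P x y) (S.erase y) (g P q)) := by
      have := Eg_mono hP' hq (A := S.erase y) (Finset.notMem_erase y S)
        (φ := dl P q i) (φ' := fun B => c * (1 - g P q B)) (fun B hB => ih B.card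
            (hk ▸ lt_of_le_of_lt (Finset.card_le_card hB) (Finset.card_erase_lt_of_mem hy))
            (fun h => hi (Finset.mem_of_mem_erase (hB h))) rfl)
      rw [Ex_mul, Ex_sub, Ex_const] at this
      exact this
    have hE2 : Ex (fun x => P x y) (S.erase y) (g P q) ≤ 1 := by
      have := Eg_mono hP' hq (A := S.erase y) (Finset.notMem_erase y S)
        (φ := g P q) (φ' := fun _ => 1) (fun B _ => g_le_one hP' hq B)
      rwa [Ex_const] at this
    have hs := hP i y (Ne.symm hyi)
    set E1 := Ex (fun x => P x y) (S.erase y) (dl P q i)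
    set E2 := Ex (fun x => P x y) (S.erase y) (g P q)
    have hq0 := (hq y).1
    calc q y * P i y * E1 ≤ q y * P i y * (c * (1 - E2)) :=
          mul_le_mul_of_nonneg_left hE1 (mul_nonneg hq0 (by linarith))
      _ ≤ q y * al * (c * (1 - E2)) := by
          apply mul_le_mul_of_nonneg_right
          · exact mul_le_mul_of_nonneg_left hs.2 hq0
          · exact mul_nonneg hc0 (by linarith)
      _ = c * al * (q y - q y * E2) := by ring
  have hgeq := g_eq P q S
  have hPi : 1 - ∏ x ∈ S, q x ≤ ∑ x ∈ S, (1 - q x) := one_sub_prod_le hq S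
  have hgp := prod_le_g hP' hq S
  rw [Finset.sum_sub_distrib, Finset.sum_const, nsmul_eq_mul, mul_one] at hPi
  have hk4 := key4 hab hbe hle hP hq hi (by omega : 1 ≤ S.card)
  set G := g P q S
  set Pr := ∏ x ∈ S, q x
  set Q := ∑ x ∈ S, q x
  set E := Ex (fun x => P x i) S (g P q)
  set X := ∑ y ∈ S, q y * Ex (fun x => P x y) (S.erase y) (g P q)
  set Y := ∑ y ∈ S, q y * P i y * Ex (fun x => P x y) (S.erase y) (dl P q i)
  have hQX : Q - X ≤ (S.card - 1) * (1 - G) := by nlinarith
  rw [← hc] at hk4
  have h1 : c * al * (Q - X) ≤ c * al * ((S.card - 1) * (1 - G)) :=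
    mul_le_mul_of_nonneg_left hQX (mul_nonneg hc0 hal0)
  have h2 : ((S.card : ℝ) + 2) * dl P q i S ≤ (S.card + 2) * (c * (1 - G)) := by
    rw [hrec]
    have e : al = 1 - be := by linarith
    calc E - G + Y ≤ c * (3 + be * (S.card - 1)) * (1 - G) + c * al * ((S.card - 1) * (1 - G)) := by
          linarith
      _ = (S.card + 2) * (c * (1 - G)) := by rw [e]; ring
  exact le_of_mul_le_mul_left h2 (by positivity)

/-- an intermediate inequality for Lemma L1 -/
theorem psi_le (S : Finset ι) : 2 * ∏ x ∈ S, (1 - al * (1 - q x)) ≤ 1 + ∏ x ∈ S, q x := by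
  have hal : 1 / 2 ≤ al := by linarith
  have hal1 : al ≤ 1 := by linarith
  have h1 : ∏ x ∈ S, (1 - al * (1 - q x)) ≤ ∏ x ∈ S, ((1 + q x) / 2) := by
    apply Finset.prod_le_prod
    · intro x _; nlinarith [(hq x).1, (hq x).2]
    · intro x _; nlinarith [(hq x).1, (hq x).2]
  have h2 : ∏ x ∈ S, ((1 + q x) / 2) ≤ (1 + ∏ x ∈ S, q x) / 2 := by
    clear h1
    induction S using Finset.induction_on with
    | empty => simp
    | insert a S ha ih =>
      rw [Finset.prod_insert ha, Finset.prod_insert ha]
      have h3 : ∏ x ∈ S, q x ≤ 1 := Finset.prod_le_one (fun x _ => (hq x).1) (fun x _ => (hq x).2)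
      have h0 := (hq a).1
      have h4 := (hq a).2
      have h5 := mul_le_mul_of_nonneg_left ih (by linarith : 0 ≤ (1 + q a) / 2)
      nlinarith [mul_nonneg (sub_nonneg.mpr h4) (sub_nonneg.mpr h3)]
  linarith

theorem phi_le (S : Finset ι) : 1 - ∏ x ∈ S, (1 - al * (1 - q x)) ≤
    al / 2 * (∑ x ∈ S, (1 - q x) + (1 - ∏ x ∈ S, q x)) := by
  induction S using Finset.induction_on with
  | empty => simp
  | insert a S ha ih =>
    rw [Finset.prod_insert ha, Finset.prod_insert ha, Finset.sum_insert ha]
    have h := psi_le hab hbe hle hP hq S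
    have h0 := (hq a).2
    have hal : 0 ≤ al := by linarith
    have := mul_le_mul_of_nonneg_left h (mul_nonneg hal (by linarith : 0 ≤ 1 - q a))
    nlinarith

/-- Lemma L1 -/
theorem lemL1 {i : ι} {S : Finset ι} (hi : i ∉ S) :
    - dl P q i S ≤ al / 2 * (1 - g P q S) := by
  have hP' := PR01 hab hbe hle hP
  induction' hk : S.card using Nat.strong_induction_on with k ih generalizing S
  have hal0 : 0 ≤ al := by linarith
  have hal1 : al ≤ 1 := by linarith
  have hrec := dl_rec P q hi
  have hsum : - ∑ y ∈ S, q y * P i y * Ex (fun x => P x y) (S.erase y) (dl P q i) ≤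
      al / 2 * al * (∑ y ∈ S, q y - ∑ y ∈ S, q y * Ex (fun x => P x y) (S.erase y) (g P q)) := by
    rw [← Finset.sum_sub_distrib, Finset.mul_sum, ← Finset.sum_neg_distrib]
    apply Finset.sum_le_sum
    intro y hy
    have hyi : y ≠ i := fun e => hi (e ▸ hy)
    have hE1 : - Ex (fun x => P x y) (S.erase y) (dl P q i) ≤
        al / 2 * (1 - Ex (fun x => P x y) (S.erase y) (g P q)) := by
      have := Eg_mono hP' hq (A := S.erase y) (Finset.notMem_erase y S)
        (φ := fun B => (-1) * dl P q i B) (φ' := fun B => al / 2 * (1 - g P q B)) (fun B hB => by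
            rw [neg_one_mul]
            exact ih B.card
              (hk ▸ lt_of_le_of_lt (Finset.card_le_card hB) (Finset.card_erase_lt_of_mem hy))
              (fun h => hi (Finset.mem_of_mem_erase (hB h))) rfl)
      rw [Ex_mul, Ex_mul, Ex_sub, Ex_const] at this
      linarith
    have hE2 : Ex (fun x => P x y) (S.erase y) (g P q) ≤ 1 := by
      have := Eg_mono hP' hq (A := S.erase y) (Finset.notMem_erase y S)
        (φ := g P q) (φ' := fun _ => 1) (fun B _ => g_le_one hP' hq B)
      rwa [Ex_const] at this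
    have hs := hP i y (Ne.symm hyi)
    set E1 := Ex (fun x => P x y) (S.erase y) (dl P q i)
    set E2 := Ex (fun x => P x y) (S.erase y) (g P q)
    have hq0 := (hq y).1
    calc -(q y * P i y * E1) = q y * P i y * (-E1) := by ring
      _ ≤ q y * P i y * (al / 2 * (1 - E2)) :=
          mul_le_mul_of_nonneg_left hE1 (mul_nonneg hq0 (by linarith))
      _ ≤ q y * al * (al / 2 * (1 - E2)) := by
          apply mul_le_mul_of_nonneg_right
          · exact mul_le_mul_of_nonneg_left hs.2 hq0
          · exact mul_nonneg (by linarith) (by linarith)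
      _ = al / 2 * al * (q y - q y * E2) := by ring
  have hgeq := g_eq P q S
  have hhge := h_ge hP' hq S
  -- E h ≤ al/2 X
  have hEh : 1 - Ex (fun x => P x i) S (g P q) ≤
      al / 2 * (∑ x ∈ S, (1 - q x) + (1 - ∏ x ∈ S, q x)) := by
    refine le_trans ?_ (phi_le hab hbe hle hP hq S)
    have h1 : ∏ x ∈ S, (1 - P x i * (1 - q x)) ≤ Ex (fun x => P x i) S (g P q) := by
      rw [← Ex_prod]
      exact Eg_mono hP' hq hi (fun B _ => prod_le_g hP' hq B)
    have h2 : ∏ x ∈ S, (1 - al * (1 - q x)) ≤ ∏ x ∈ S, (1 - P x i * (1 - q x)) := by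
      apply Finset.prod_le_prod
      · intro x _; nlinarith [(hq x).1, (hq x).2]
      · intro x hx
        have := (hP x i (fun e => hi (e ▸ hx))).2
        nlinarith [(hq x).2]
    linarith
  rw [Finset.sum_sub_distrib, Finset.sum_const, nsmul_eq_mul, mul_one] at hEh hhge
  set G := g P q S
  set Pr := ∏ x ∈ S, q x
  set Q := ∑ x ∈ S, q x
  set E := Ex (fun x => P x i) S (g P q)
  set X := ∑ y ∈ S, q y * Ex (fun x => P x y) (S.erase y) (g P q)
  set Y := ∑ y ∈ S, q y * P i y * Ex (fun x => P x y) (S.erase y) (dl P q i)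
  set K : ℝ := (S.card : ℝ) with hK
  have hK0 : 0 ≤ K := by positivity
  -- Z = ΣA + 1 - Π
  set Z := K - Q + (1 - Pr) with hZ
  have hQX : Q - X = (K + 1) * (1 - G) - Z := by rw [hZ]; linarith
  rw [hQX] at hsum
  -- goal: (K+2)(-dl) ≤ (K+2) (al/2) (1-G)
  have hZ' : Z ≤ (K + 1) * (1 - G) := hhge
  have hZ0 : 0 ≤ Z ∨ Z < 0 := le_or_gt 0 Z
  have h2 : (K + 2) * (- dl P q i S) ≤ (K + 2) * (al / 2 * (1 - G)) := by
    have e1 : (K + 2) * (- dl P q i S) = (1 - E) - (1 - G) + (- Y) := by linarith
    rw [e1]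
    have h3 : (1 - E) - (1 - G) + (- Y) ≤
        al / 2 * Z - (1 - G) + al / 2 * al * ((K + 1) * (1 - G) - Z) := by linarith
    refine h3.trans ?_
    -- coefficient: (1-G) (1 + (K+2) al/2 - (K+1) al^2/2) ≥ Z (al/2 - al^2/2)
    have hcoef : 0 ≤ 1 + (K + 2) * (al / 2) - (K + 1) * (al / 2 * al) := by
      have := mul_nonneg (mul_nonneg (by linarith : 0 ≤ K + 1) hal0) (by linarith : 0 ≤ 1 - al)
      nlinarith
    have hH0 : 0 ≤ 1 - G := by linarith [g_le_one hP' hq S]
    have hfrac : (K + 1) * (al / 2 - al / 2 * al) ≤ 1 + (K + 2) * (al / 2) - (K + 1) * (al / 2 * al) := by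
      nlinarith
    have h4 : Z * (al / 2 - al / 2 * al) ≤ (K + 1) * (1 - G) * (al / 2 - al / 2 * al) :=
      mul_le_mul_of_nonneg_right hZ' (by nlinarith)
    have h5 := mul_le_mul_of_nonneg_right hfrac hH0
    nlinarith
  exact le_of_mul_le_mul_left h2 (by positivity)

/-- Lemma L2 -/
theorem lemL2 {i : ι} {S : Finset ι} (hi : i ∉ S) :
    - dl P q i S * (1 + 3 * be) ≤ g P q S := by
  have hP' := PR01 hab hbe hle hP
  induction' hk : S.card using Nat.strong_induction_on with k ih generalizing S
  have hal0 : 0 ≤ al := by linarith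
  have hal1 : al ≤ 1 := by linarith
  have hg0 := g_nonneg hP' hq S
  rcases Nat.lt_or_ge k 2 with hk2 | hk2
  · -- dl ≥ 0
    have : 0 ≤ dl P q i S := by
      interval_cases k
      · have : S = ∅ := Finset.card_eq_zero.mp hk
        subst this; rw [dl_empty]
      · obtain ⟨y, rfl⟩ := Finset.card_eq_one.mp hk
        have hyi : y ≠ i := fun e => hi (by simp [e])
        have hrec := dl_rec P q hi
        rw [Finset.sum_singleton, Finset.erase_singleton, Ex_empty, dl_empty] at hrec
        have hins : ({y} : Finset ι) = insert y ∅ := rfl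
        have e1 : Ex (fun x => P x i) {y} (g P q) = P y i * g P q {y} + (1 - P y i) * 1 := by
          rw [hins, Ex_insert (by simp), Ex_empty, Ex_empty, g_empty]
        rw [e1, Finset.card_singleton, g_singleton] at hrec
        push_cast at hrec
        have := (hP y i hyi)
        nlinarith [(hq y).2, mul_nonneg (by linarith : 0 ≤ 1 - P y i) (by linarith [(hq y).2] : 0 ≤ 1 - q y)]
    nlinarith [mul_nonneg this (by linarith : 0 ≤ 1 + 3 * be)]
  have hrec := dl_rec P q hi
  have hsum : (1 + 3 * be) * - ∑ y ∈ S, q y * P i y * Ex (fun x => P x y) (S.erase y) (dl P q i) ≤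
      al * ∑ y ∈ S, q y * Ex (fun x => P x y) (S.erase y) (g P q) := by
    rw [Finset.mul_sum, ← Finset.sum_neg_distrib, Finset.mul_sum]
    apply Finset.sum_le_sum
    intro y hy
    have hyi : y ≠ i := fun e => hi (e ▸ hy)
    have hE1 : (1 + 3 * be) * - Ex (fun x => P x y) (S.erase y) (dl P q i) ≤
        Ex (fun x => P x y) (S.erase y) (g P q) := by
      have := Eg_mono hP' hq (A := S.erase y) (Finset.notMem_erase y S)
        (φ := fun B => (-(1 + 3 * be)) * dl P q i B) (φ' := g P q) (fun B hB => by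
            have := ih B.card
              (hk ▸ lt_of_le_of_lt (Finset.card_le_card hB) (Finset.card_erase_lt_of_mem hy))
              (fun h => hi (Finset.mem_of_mem_erase (hB h))) rfl
            linarith)
      rw [Ex_mul] at this
      linarith
    have hE2 : 0 ≤ Ex (fun x => P x y) (S.erase y) (g P q) := by
      have := Eg_mono hP' hq (A := S.erase y) (Finset.notMem_erase y S)
        (φ := fun _ => 0) (φ' := g P q) (fun B _ => g_nonneg hP' hq B)
      rwa [Ex_const] at this
    have hs := hP i y (Ne.symm hyi)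
    set E1 := Ex (fun x => P x y) (S.erase y) (dl P q i)
    set E2 := Ex (fun x => P x y) (S.erase y) (g P q)
    have hq0 := (hq y).1
    calc (1 + 3 * be) * -(q y * P i y * E1) = q y * P i y * ((1 + 3 * be) * -E1) := by ring
      _ ≤ q y * P i y * E2 :=
          mul_le_mul_of_nonneg_left hE1 (mul_nonneg hq0 (by linarith))
      _ ≤ q y * al * E2 := by
          apply mul_le_mul_of_nonneg_right _ hE2
          exact mul_le_mul_of_nonneg_left hs.2 hq0
      _ = al * (q y * E2) := by ring
  have hgeq := g_eq P q S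
  have hPr0 : 0 ≤ ∏ x ∈ S, q x := Finset.prod_nonneg fun x _ => (hq x).1
  have hE0 : 0 ≤ Ex (fun x => P x i) S (g P q) := by
    have := Eg_mono hP' hq hi
      (φ := fun _ => 0) (φ' := g P q) (fun B _ => g_nonneg hP' hq B)
    rwa [Ex_const] at this
  have hKk : (2 : ℝ) ≤ S.card := by rw [hk]; exact_mod_cast hk2
  set G := g P q S
  set Pr := ∏ x ∈ S, q x
  set E := Ex (fun x => P x i) S (g P q)
  set X := ∑ y ∈ S, q y * Ex (fun x => P x y) (S.erase y) (g P q)
  set Y := ∑ y ∈ S, q y * P i y * Ex (fun x => P x y) (S.erase y) (dl P q i)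
  set K : ℝ := (S.card : ℝ) with hK
  have h2 : (K + 2) * (- dl P q i S * (1 + 3 * be)) ≤ (K + 2) * G := by
    have e1 : (K + 2) * (- dl P q i S * (1 + 3 * be)) =
        (1 + 3 * be) * (G - E) + (1 + 3 * be) * - Y := by linear_combination (-(1 + 3 * be)) * hrec
    rw [e1]
    have e2 : X = (K + 1) * G - Pr := by linarith
    rw [e2] at hsum
    have e3 : al = 1 - be := by linarith
    have h5 : 0 ≤ (K - 2) * be * G := mul_nonneg (mul_nonneg (by linarith) hbe) hg0
    have h6 : 0 ≤ (1 + 3 * be) * E := mul_nonneg (by linarith) hE0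
    have h7 : 0 ≤ al * Pr := mul_nonneg hal0 hPr0
    have h8 : (1 + 3 * be) * (G - E) + (1 + 3 * be) * - Y ≤
      (1 + 3 * be) * (G - E) + al * ((K + 1) * G - Pr) := by linarith
    refine h8.trans ?_
    rw [e3] at h7 ⊢
    nlinarith
  exact le_of_mul_le_mul_left h2 (by positivity)

/-- Lemma L -/
theorem lemL {i : ι} {S : Finset ι} (hi : i ∉ S) :
    - dl P q i S ≤ (1 - al * be) / 3 := by
  have h1 := lemL1 hab hbe hle hP hq hi
  have h2 := lemL2 hab hbe hle hP hq hi
  have hz : 0 ≤ al * be := mul_nonneg (by linarith) hbe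
  have hal0 : 0 ≤ al := by linarith
  have hal1 : al ≤ 1 := by linarith
  have hz1 : 0 ≤ 1 - al * be := by nlinarith
  set x := - dl P q i S
  by_contra hcon
  push Not at hcon
  -- al ≥ x (2 + al (1+3be))
  have h3 : x * (2 + al * (1 + 3 * be)) ≤ al := by nlinarith
  have h4 : 3 * al ≤ (al + 3 * (al * be) + 2) * (1 - al * be) := by
    have e : al = 1 - be := by linarith
    have : 0 ≤ be * (2 + al * be - 3 * al * (al * be)) := by
      apply mul_nonneg hbe
      nlinarith [mul_nonneg hal0 hz]
    rw [e] at this ⊢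
    nlinarith
  have h5 : (1 - al * be) / 3 * (2 + al * (1 + 3 * be)) < x * (2 + al * (1 + 3 * be)) :=
    mul_lt_mul_of_pos_right hcon (by nlinarith)
  nlinarith

end bounds

end Pool.Agent.R19.KotH
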