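import Mathlib
import Pool.Agent.R19.KotHU

/-!
The exchange inequality (*) for the function `Eh`.
-/

namespace Pool.Agent.R19.KotH

open Finset

variable {ι : Type*} [DecidableEq ι]

theorem g_affine (P : ι → ι → ℝ) (q : ι → ℝ) (i : ι) (t : ℝ) (S : Finset ι) :
    g P (Function.update q i t) S =
      t * g P (Function.update q i 1) S + (1 - t) * g P (Function.update q i 0) S := by
  induction' hk : S.card using Nat.strong_induction_on with k ih generalizing S
  by_cases hi : i ∈ S
  · obtain ⟨S', hi', rfl⟩ : ∃ S', i ∉ S' ∧ insert i S' = S :=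
      ⟨S.erase i, Finset.notMem_erase i S, Finset.insert_erase hi⟩
    have h : (((insert i S').card : ℝ) + 1) ≠ 0 := by positivity
    apply mul_left_cancel₀ h
    have key : ∀ t : ℝ, (((insert i S').card : ℝ) + 1) * g P (Function.update q i t) (insert i S') =
        t * (∏ x ∈ S', q x) + (t * Ex (fun x => P x i) S' (g P q) +
          ∑ y ∈ S', q y * Ex (fun x => P x y) ((insert i S').erase y)
            (g P (Function.update q i t))) := by
      intro t
      rw [g_eq, Finset.prod_insert hi', Finset.sum_insert hi', Finset.erase_insert hi',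
        Function.update_self]
      have e3 : ∏ x ∈ S', Function.update q i t x = ∏ x ∈ S', q x :=
        Finset.prod_congr rfl fun x hx => Function.update_of_ne (fun h : x = i => hi' (h ▸ hx)) _ _
      have e4 : Ex (fun x => P x i) S' (g P (Function.update q i t)) =
          Ex (fun x => P x i) S' (g P q) :=
        Ex_congr (fun _ _ => rfl) (fun B hB => g_update_notMem (fun h => hi' (hB h)) t)
      rw [e3, e4]
      congr 2
      apply Finset.sum_congr rfl
      intro y hy
      rw [Function.update_of_ne (fun h : y = i => hi' (h ▸ hy))]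
    have hsum : ∑ y ∈ S', q y * Ex (fun x => P x y) ((insert i S').erase y)
            (g P (Function.update q i t)) =
        t * ∑ y ∈ S', q y * Ex (fun x => P x y) ((insert i S').erase y)
            (g P (Function.update q i 1)) +
        (1 - t) * ∑ y ∈ S', q y * Ex (fun x => P x y) ((insert i S').erase y)
            (g P (Function.update q i 0)) := by
      rw [Finset.mul_sum, Finset.mul_sum, ← Finset.sum_add_distrib]
      apply Finset.sum_congr rfl
      intro y hy
      have : Ex (fun x => P x y) ((insert i S').erase y) (g P (Function.update q i t)) =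
          t * Ex (fun x => P x y) ((insert i S').erase y) (g P (Function.update q i 1)) +
          (1 - t) * Ex (fun x => P x y) ((insert i S').erase y) (g P (Function.update q i 0)) := by
        rw [← Ex_mul, ← Ex_mul, ← Ex_add]
        apply Ex_congr (fun _ _ => rfl)
        intro B hB
        exact ih B.card (hk ▸ lt_of_le_of_lt (Finset.card_le_card hB)
          (Finset.card_erase_lt_of_mem (Finset.mem_insert_of_mem hy))) B rfl
      rw [this]; ring
    rw [key t, hsum, mul_add, ← mul_assoc, mul_comm _ t, mul_assoc, key 1, ← mul_assoc,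
      mul_comm _ (1 - t), mul_assoc, key 0]
    ring
  · rw [g_update_notMem hi, g_update_notMem hi, g_update_notMem hi]; ring

/-- `Eh q r` on `W`. -/
noncomputable def Eh (P : ι → ι → ℝ) (W : Finset ι) (q r : ι → ℝ) : ℝ :=
  Ex (fun x => 1 - r x) W (g P q)

theorem Eh_formula (P : ι → ι → ℝ) {W : Finset ι} {i : ι} (hi : i ∉ W) (q r : ι → ℝ) :
    Eh P (insert i W) q r = (1 - r i) * (q i *
      Ex (fun x => 1 - r x) W (fun B => g P (Function.update q i 1) (insert i B)) +
      (1 - q i) * Ex (fun x => 1 - r x) W (fun B => g P (Function.update q i 0) (insert i B))) +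
      r i * Ex (fun x => 1 - r x) W (g P q) := by
  unfold Eh
  rw [Ex_insert hi]
  have : Ex (fun x => 1 - r x) W (fun B => g P q (insert i B)) = q i *
      Ex (fun x => 1 - r x) W (fun B => g P (Function.update q i 1) (insert i B)) +
      (1 - q i) * Ex (fun x => 1 - r x) W (fun B => g P (Function.update q i 0) (insert i B)) := by
    rw [← Ex_mul, ← Ex_mul, ← Ex_add]
    apply Ex_congr (fun _ _ => rfl)
    intro B _
    have := g_affine P q i (q i) (insert i B)
    rwa [Function.update_eq_self] at this
  rw [this]; ring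

theorem swap_one (P : ι → ι → ℝ) {W : Finset ι} {i : ι} (hi : i ∉ W) (q r : ι → ℝ) :
    Eh P (insert i W) q r -
      Eh P (insert i W) (Function.update q i (r i)) (Function.update r i (q i)) =
    (q i - r i) * Ex (fun x => 1 - r x) W (dl P q i) := by
  rw [Eh_formula P hi, Eh_formula P hi]
  simp only [Function.update_self, Function.update_idem]
  have hr : ∀ φ, Ex (fun x => 1 - Function.update r i (q i) x) W φ = Ex (fun x => 1 - r x) W φ := by
    intro φ
    apply Ex_congr _ (fun _ _ => rfl)
    intro x hx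
    rw [Function.update_of_ne (fun h : x = i => hi (h ▸ hx))]
  have hg : Ex (fun x => 1 - r x) W (g P (Function.update q i (r i))) =
      Ex (fun x => 1 - r x) W (g P q) :=
    Ex_congr (fun _ _ => rfl) (fun B hB => g_update_notMem (fun h => hi (hB h)) _)
  rw [hr, hr, hr, hg]
  have hd : Ex (fun x => 1 - r x) W (dl P q i) =
      Ex (fun x => 1 - r x) W (fun B => g P (Function.update q i 1) (insert i B)) -
      Ex (fun x => 1 - r x) W (g P q) := by
    rw [← Ex_sub]; rfl
  rw [hd]; ring

set_option linter.unusedSectionVars false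
section star
variable {P : ι → ι → ℝ} {al be : ℝ} (hab : al + be = 1) (hbe : 0 ≤ be) (hle : be ≤ al)
include hab hbe hle

section
variable (hP : PR P be al)
include hP

/-- bound for one exchange -/
noncomputable def bnd (al be a b K : ℝ) : ℝ :=
  if b ≤ a then (1 - al * be) / 3 * ((a - b) * (1 - K)) else (1 - al * be) / 3 * (b - a)

theorem swap_one_le {W : Finset ι} {i : ι} (hi : i ∉ W) {q r : ι → ℝ}
    (hq : ∀ x, be ≤ q x ∧ q x ≤ al) (hr : ∀ x, be ≤ r x ∧ r x ≤ al) :
    Eh P (insert i W) q r -
      Eh P (insert i W) (Function.update q i (r i)) (Function.update r i (q i)) ≤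
    bnd al be (q i) (r i) (∏ x ∈ W, (q x + r x - q x * r x)) := by
  have hal1 : al ≤ 1 := by linarith
  have hq' : ∀ x, 0 ≤ q x ∧ q x ≤ 1 := fun x => ⟨by linarith [(hq x).1], by linarith [(hq x).2]⟩
  have hP' := PR01 hab hbe hle hP
  have hr0 : ∀ x ∈ W, 0 ≤ 1 - r x := fun x _ => by linarith [(hr x).2]
  have hr1 : ∀ x ∈ W, 1 - r x ≤ 1 := fun x _ => by linarith [(hr x).1]
  rw [swap_one P hi]
  have hz1 : 0 ≤ 1 - al * be := by nlinarith
  unfold bnd
  split_ifs with h
  · have h1 : Ex (fun x => 1 - r x) W (dl P q i) ≤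
        Ex (fun x => 1 - r x) W (fun B => (1 - al * be) / 3 * (1 - g P q B)) :=
      Ex_mono hr0 hr1 (fun B hB => lemU hab hbe hle hP hq' (fun h => hi (hB h)))
    rw [Ex_mul, Ex_sub, Ex_const] at h1
    have h2 : ∏ x ∈ W, (q x + r x - q x * r x) ≤ Ex (fun x => 1 - r x) W (g P q) := by
      have h3 := Ex_prod (fun x => 1 - r x) q W
      have h4 : ∏ x ∈ W, (q x + r x - q x * r x) = ∏ x ∈ W, (1 - (1 - r x) * (1 - q x)) :=
        Finset.prod_congr rfl (fun x _ => by ring)
      rw [h4, ← h3]
      exact Ex_mono hr0 hr1 (fun B _ => prod_le_g hP' hq' B)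
    have h5 : Ex (fun x => 1 - r x) W (dl P q i) ≤
        (1 - al * be) / 3 * (1 - ∏ x ∈ W, (q x + r x - q x * r x)) := by
      refine h1.trans (mul_le_mul_of_nonneg_left (by linarith) (by linarith))
    have := mul_le_mul_of_nonneg_left h5 (by linarith : 0 ≤ q i - r i)
    linarith
  · have h1 : Ex (fun x => 1 - r x) W (fun B => (-1) * dl P q i B) ≤
        Ex (fun x => 1 - r x) W (fun _ => (1 - al * be) / 3) :=
      Ex_mono hr0 hr1 (fun B hB => by
        rw [neg_one_mul]; exact lemL hab hbe hle hP hq' (fun h => hi (hB h)))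
    rw [Ex_mul, Ex_const] at h1
    have := mul_le_mul_of_nonneg_left h1 (by linarith : 0 ≤ r i - q i)
    linarith

/-- partially exchanged vector -/
def sw (A : Finset ι) (q r : ι → ℝ) (x : ι) : ℝ := if x ∈ A then r x else q x

theorem swap_all {W : Finset ι} {q r : ι → ℝ}
    (hq : ∀ x, be ≤ q x ∧ q x ≤ al) (hr : ∀ x, be ≤ r x ∧ r x ≤ al) :
    Eh P W q r - Eh P W r q ≤
      ∑ i ∈ W, bnd al be (q i) (r i) (∏ x ∈ W.erase i, (q x + r x - q x * r x)) := by
  have main : ∀ A : Finset ι, A ⊆ W → Eh P W q r - Eh P W (sw A q r) (sw A r q) ≤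
      ∑ i ∈ A, bnd al be (q i) (r i) (∏ x ∈ W.erase i, (q x + r x - q x * r x)) := by
    intro A
    induction A using Finset.induction_on with
    | empty =>
      intro _
      have e1 : sw ∅ q r = q := by funext x; simp [sw]
      have e2 : sw ∅ r q = r := by funext x; simp [sw]
      rw [e1, e2]; simp
    | insert i A hi ih =>
      intro hA
      have hA' : A ⊆ W := (Finset.subset_insert i A).trans hA
      have hiW : i ∈ W := hA (Finset.mem_insert_self i A)
      rw [Finset.sum_insert hi]
      have ih' := ih hA'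
      have hsq : ∀ x, be ≤ sw A q r x ∧ sw A q r x ≤ al := by
        intro x; unfold sw; split_ifs; exacts [hr x, hq x]
      have hsr : ∀ x, be ≤ sw A r q x ∧ sw A r q x ≤ al := by
        intro x; unfold sw; split_ifs; exacts [hq x, hr x]
      have h := swap_one_le hab hbe hle hP (Finset.notMem_erase i W) hsq hsr
      rw [Finset.insert_erase hiW] at h
      have e1 : sw A q r i = q i := by simp [sw, hi]
      have e2 : sw A r q i = r i := by simp [sw, hi]
      have e3 : Function.update (sw A q r) i (r i) = sw (insert i A) q r := by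
        funext x
        by_cases hx : x = i
        · subst hx; simp [sw]
        · rw [Function.update_of_ne hx]; simp [sw, hx]
      have e4 : Function.update (sw A r q) i (q i) = sw (insert i A) r q := by
        funext x
        by_cases hx : x = i
        · subst hx; simp [sw]
        · rw [Function.update_of_ne hx]; simp [sw, hx]
      have e5 : ∏ x ∈ W.erase i, (sw A q r x + sw A r q x - sw A q r x * sw A r q x) =
          ∏ x ∈ W.erase i, (q x + r x - q x * r x) := by
        apply Finset.prod_congr rfl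
        intro x _
        unfold sw; split_ifs <;> ring
      rw [e1, e2, e3, e4, e5] at h
      linarith
  have h := main W (Finset.Subset.refl W)
  have e1 : Eh P W (sw W q r) (sw W r q) = Eh P W r q := by
    unfold Eh
    apply Ex_congr
    · intro x hx; simp [sw, hx]
    · intro B hB
      apply g_congr (fun _ _ _ _ _ => rfl)
      intro x hx; simp [sw, hB hx]
  rwa [e1] at h

end

/-- (i) -/
theorem prod_sub_le {W : Finset ι} (hW : W.Nonempty) {q r : ι → ℝ}
    (hq : ∀ x, be ≤ q x ∧ q x ≤ al) (hr : ∀ x, be ≤ r x ∧ r x ≤ al) :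
    ∏ x ∈ W, q x - ∏ x ∈ W, r x ≤ al - be := by
  have hal0 : 0 ≤ al := by linarith
  have h1 : ∏ x ∈ W, q x ≤ al ^ W.card := by
    rw [← Finset.prod_const]
    exact Finset.prod_le_prod (fun x _ => by linarith [(hq x).1]) (fun x _ => (hq x).2)
  have h2 : be ^ W.card ≤ ∏ x ∈ W, r x := by
    rw [← Finset.prod_const]
    exact Finset.prod_le_prod (fun x _ => hbe) (fun x _ => (hr x).1)
  have h3 : ∀ m : ℕ, al ^ (m + 1) - be ^ (m + 1) ≤ al - be := by
    intro m
    induction m with
    | zero => simp
    | succ m ih =>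
      refine le_trans ?_ ih
      have h4 : be ^ m ≤ al ^ m := pow_le_pow_left₀ hbe hle m
      have h5 : 0 ≤ al * be * (al ^ m - be ^ m) :=
        mul_nonneg (mul_nonneg hal0 hbe) (by linarith)
      have e : al = 1 - be := by linarith
      have e6 : al ^ (m + 1) - be ^ (m + 1) - (al ^ (m + 1 + 1) - be ^ (m + 1 + 1)) =
          al * be * (al ^ m - be ^ m) := by
        rw [pow_succ, pow_succ, pow_succ (al) (m+1), pow_succ be (m+1), pow_succ, pow_succ]
        rw [e]; ring
      linarith
  obtain ⟨m, hm⟩ : ∃ m, W.card = m + 1 := ⟨W.card - 1, by have := hW.card_pos; omega⟩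
  have := h3 m
  rw [hm] at h1 h2
  linarith

/-- (ii) -/
theorem avg_le {a b : ℝ} (ha : be ≤ a ∧ a ≤ al) (hb : be ≤ b ∧ b ≤ al) :
    (a + b) / 2 ≤ (1 - al * be) * (a + b - a * b) := by
  have hal1 : al ≤ 1 := by linarith
  have hz1 : 0 ≤ 1 - al * be := by nlinarith
  have h1 : a * b ≤ (a + b) ^ 2 / 4 := by nlinarith [sq_nonneg (a - b)]
  have h2 : (1 - al * be) * (1 - (a + b) / 4) ≥ 1 / 2 := by
    have h3 : (1 - al * be) * (1 - al / 2) ≥ 1 / 2 := by
      have e : be = 1 - al := by linarith
      rw [e]
      have : 0 ≤ (1 - al) ^ 3 := pow_nonneg (by linarith) 3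
      nlinarith
    have h4 : (1 - al * be) * (1 - al / 2) ≤ (1 - al * be) * (1 - (a + b) / 4) :=
      mul_le_mul_of_nonneg_left (by linarith) hz1
    linarith
  have h5 := mul_le_mul_of_nonneg_left h2 (by linarith : 0 ≤ a + b)
  have h6 : (1 - al * be) * (a + b - (a + b) ^ 2 / 4) ≤ (1 - al * be) * (a + b - a * b) :=
    mul_le_mul_of_nonneg_left (by linarith) hz1
  nlinarith

/-- (A+B)/2 ≤ (1-z) C -/
theorem avg_prod_le {W : Finset ι} (hW : W.Nonempty) {q r : ι → ℝ}
    (hq : ∀ x, be ≤ q x ∧ q x ≤ al) (hr : ∀ x, be ≤ r x ∧ r x ≤ al) :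
    (∏ x ∈ W, q x + ∏ x ∈ W, r x) / 2 ≤ (1 - al * be) * ∏ x ∈ W, (q x + r x - q x * r x) := by
  have hal1 : al ≤ 1 := by linarith
  induction hW using Finset.Nonempty.cons_induction with
  | singleton a => simpa using avg_le hab hbe hle (hq a) (hr a)
  | cons a S ha hS ih =>
    rw [Finset.prod_cons, Finset.prod_cons, Finset.prod_cons]
    have hA : 0 ≤ ∏ x ∈ S, q x := Finset.prod_nonneg fun x _ => by linarith [(hq x).1]
    have hB : 0 ≤ ∏ x ∈ S, r x := Finset.prod_nonneg fun x _ => by linarith [(hr x).1]
    have hqa := hq a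
    have hra := hr a
    set A := ∏ x ∈ S, q x
    set B := ∏ x ∈ S, r x
    set C := ∏ x ∈ S, (q x + r x - q x * r x)
    have h1 : q a ≤ q a + r a - q a * r a := by nlinarith
    have h2 : r a ≤ q a + r a - q a * r a := by nlinarith
    have h3 := mul_le_mul_of_nonneg_right h1 hA
    have h4 := mul_le_mul_of_nonneg_right h2 hB
    have h5 := mul_le_mul_of_nonneg_left ih (by nlinarith : 0 ≤ q a + r a - q a * r a)
    nlinarith

/-- (iii) -/
theorem diff_le {W : Finset ι} (hW : 2 ≤ W.card) {q r : ι → ℝ}
    (hq : ∀ x, be ≤ q x ∧ q x ≤ al) (hr : ∀ x, be ≤ r x ∧ r x ≤ al) :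
    ∏ x ∈ W, q x - ∏ x ∈ W, r x ≤ (1 - al * be) *
      ∑ i ∈ W, max (q i - r i) 0 * ∏ x ∈ W.erase i, (q x + r x - q x * r x) := by
  have hal1 : al ≤ 1 := by linarith
  have hz1 : 0 ≤ 1 - al * be := by nlinarith
  have hc0 : ∀ x, 0 ≤ q x + r x - q x * r x := fun x => by nlinarith [hq x, hr x]
  induction W using Finset.induction_on with
  | empty => simp at hW
  | insert j S hj ih =>
    rw [Finset.prod_insert hj, Finset.prod_insert hj, Finset.sum_insert hj,
      Finset.erase_insert hj]
    have hqj := hq j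
    have hrj := hr j
    rcases Nat.lt_or_ge S.card 2 with hc | hc
    · rw [Finset.card_insert_of_notMem hj] at hW
      obtain ⟨i, rfl⟩ := Finset.card_eq_one.mp (by omega : S.card = 1)
      have hij : i ≠ j := fun e => hj (by simp [e])
      have e1 : (insert j ({i} : Finset ι)).erase i = {j} := by
        ext x; simp only [Finset.mem_erase, Finset.mem_insert, Finset.mem_singleton]
        constructor
        · rintro ⟨h1, h2 | h2⟩
          · exact h2
          · exact absurd h2 h1
        · rintro rfl; exact ⟨Ne.symm hij, Or.inl rfl⟩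
      rw [Finset.sum_singleton, e1]
      simp only [Finset.prod_singleton]
      have h1 := avg_le hab hbe hle (hq i) (hr i)
      have h2 := avg_le hab hbe hle (hq j) (hr j)
      have hqi := hq i
      have hri := hr i
      set ci := q i + r i - q i * r i
      set cj := q j + r j - q j * r j
      have m1 : (q j - r j) * ((q i + r i) / 2) ≤ max (q j - r j) 0 * ((1 - al * be) * ci) := by
        calc (q j - r j) * ((q i + r i) / 2) ≤ max (q j - r j) 0 * ((q i + r i) / 2) :=
              mul_le_mul_of_nonneg_right (le_max_left _ _) (by linarith)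
          _ ≤ _ := mul_le_mul_of_nonneg_left h1 (le_max_right _ _)
      have m2 : (q i - r i) * ((q j + r j) / 2) ≤ max (q i - r i) 0 * ((1 - al * be) * cj) := by
        calc (q i - r i) * ((q j + r j) / 2) ≤ max (q i - r i) 0 * ((q j + r j) / 2) :=
              mul_le_mul_of_nonneg_right (le_max_left _ _) (by linarith)
          _ ≤ _ := mul_le_mul_of_nonneg_left h2 (le_max_right _ _)
      linarith
    · have ih' := ih hc
      have hSn : S.Nonempty := Finset.card_pos.mp (by omega)
      have hav := avg_prod_le hab hbe hle hSn hq hr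
      have e1 : ∑ i ∈ S, max (q i - r i) 0 *
            ∏ x ∈ (insert j S).erase i, (q x + r x - q x * r x) =
          (q j + r j - q j * r j) * ∑ i ∈ S, max (q i - r i) 0 *
            ∏ x ∈ S.erase i, (q x + r x - q x * r x) := by
        rw [Finset.mul_sum]
        apply Finset.sum_congr rfl
        intro i hi
        have hij : j ≠ i := fun e => hj (e ▸ hi)
        rw [Finset.erase_insert_of_ne hij,
          Finset.prod_insert (fun h => hj (Finset.mem_of_mem_erase h))]
        ring
      rw [e1]
      have hT0 : 0 ≤ ∑ i ∈ S, max (q i - r i) 0 *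
            ∏ x ∈ S.erase i, (q x + r x - q x * r x) :=
        Finset.sum_nonneg fun i _ => mul_nonneg (le_max_right _ _)
          (Finset.prod_nonneg fun x _ => hc0 x)
      have hA : 0 ≤ ∏ x ∈ S, q x := Finset.prod_nonneg fun x _ => by linarith [(hq x).1]
      have hB : 0 ≤ ∏ x ∈ S, r x := Finset.prod_nonneg fun x _ => by linarith [(hr x).1]
      set T := ∑ i ∈ S, max (q i - r i) 0 * ∏ x ∈ S.erase i, (q x + r x - q x * r x)
      set A := ∏ x ∈ S, q x
      set B := ∏ x ∈ S, r x
      set C := ∏ x ∈ S, (q x + r x - q x * r x)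
      have m1 : (q j - r j) * ((A + B) / 2) ≤ max (q j - r j) 0 * ((1 - al * be) * C) := by
        calc (q j - r j) * ((A + B) / 2) ≤ max (q j - r j) 0 * ((A + B) / 2) :=
              mul_le_mul_of_nonneg_right (le_max_left _ _) (by linarith)
          _ ≤ _ := mul_le_mul_of_nonneg_left hav (le_max_right _ _)
      have m2 : (q j + r j) / 2 * (A - B) ≤ (q j + r j - q j * r j) * ((1 - al * be) * T) := by
        calc (q j + r j) / 2 * (A - B) ≤ (q j + r j) / 2 * ((1 - al * be) * T) :=
              mul_le_mul_of_nonneg_left ih' (by linarith)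
          _ ≤ _ := mul_le_mul_of_nonneg_right (by nlinarith) (mul_nonneg hz1 hT0)
      linarith

/-- (iv) -/
theorem abs_le_iv {a b : ℝ} (ha : be ≤ a ∧ a ≤ al) (hb : be ≤ b ∧ b ≤ al) :
    (1 - al * be) * |a - b| ≤ (al - be) * (1 - a * b) := by
  have hal1 : al ≤ 1 := by linarith
  have main : ∀ a b : ℝ, (be ≤ a ∧ a ≤ al) → (be ≤ b ∧ b ≤ al) → b ≤ a →
      (1 - al * be) * (a - b) ≤ (al - be) * (1 - a * b) := by
    intro a b ha hb hba
    have h1 : a * b ≤ al * (al - (a - b)) := by nlinarith
    have h2 : 0 ≤ (al - be - (a - b)) * (1 - al ^ 2) := mul_nonneg (by linarith) (by nlinarith)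
    have h3 := mul_le_mul_of_nonneg_left h1 (by linarith : 0 ≤ al - be)
    have e : be = 1 - al := by linarith
    rw [e] at h2 h3 ⊢
    nlinarith
  rcases le_total b a with h | h
  · rw [abs_of_nonneg (by linarith)]; exact main a b ha hb h
  · rw [abs_of_nonpos (by linarith)]
    have := main b a hb ha h
    nlinarith

/-- the inequality (*) -/
theorem star_ineq (hP : PR P be al) {W : Finset ι} (hW : 2 ≤ W.card) {q r : ι → ℝ}
    (hq : ∀ x, be ≤ q x ∧ q x ≤ al) (hr : ∀ x, be ≤ r x ∧ r x ≤ al) :
    3 * ((Eh P W q r - ∏ x ∈ W, r x) - (Eh P W r q - ∏ x ∈ W, q x)) ≤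
      (al - be) * (W.card + 2 - ∑ x ∈ W, q x * r x) := by
  have h1 := swap_all hab hbe hle hP (W := W) hq hr
  have hWn : W.Nonempty := Finset.card_pos.mp (by omega)
  have h2 := prod_sub_le hab hbe hle hWn hq hr
  have h3 := diff_le hab hbe hle hW hq hr
  have h4 : 3 * ∑ i ∈ W, bnd al be (q i) (r i) (∏ x ∈ W.erase i, (q x + r x - q x * r x)) =
      (1 - al * be) * ∑ i ∈ W, |q i - r i| - (1 - al * be) *
      ∑ i ∈ W, max (q i - r i) 0 * ∏ x ∈ W.erase i, (q x + r x - q x * r x) := by
    rw [Finset.mul_sum, Finset.mul_sum, Finset.mul_sum, ← Finset.sum_sub_distrib]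
    apply Finset.sum_congr rfl
    intro i _
    unfold bnd
    split_ifs with h
    · rw [abs_of_nonneg (by linarith), max_eq_left (by linarith)]; ring
    · rw [abs_of_neg (by linarith), max_eq_right (by linarith)]; ring
  have h5 : (1 - al * be) * ∑ i ∈ W, |q i - r i| ≤ (al - be) * (W.card - ∑ x ∈ W, q x * r x) := by
    have : (W.card : ℝ) - ∑ x ∈ W, q x * r x = ∑ x ∈ W, (1 - q x * r x) := by
      rw [Finset.sum_sub_distrib, Finset.sum_const, nsmul_eq_mul, mul_one]
    rw [this, Finset.mul_sum, Finset.mul_sum]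
    exact Finset.sum_le_sum fun i _ => abs_le_iv hab hbe hle (hq i) (hr i)
  linarith

end star

end Pool.Agent.R19.KotH
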