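import Mathlib
import Pool.Agent.R19.KotHS

/-!
The lazily sampled selection probability `f`, its affinity in each match probability and the bound
on the slope `D`.
-/

namespace Pool.Agent.R19.KotH

open Finset

variable {ι : Type*} [DecidableEq ι]

/-- `f T R x`: probability that `x` is selected from the remaining set `R`, by the lazily sampled
recursion. -/
noncomputable def f (T : ι → ι → ℝ) (R : Finset ι) (x : ι) : ℝ :=
  (∑ h ∈ R, Ex (fun y => T y h) (R.erase h)
    (fun S => if S = ∅ then (if x = h then 1 else 0) else
      if _hS : S.card < R.card then f T S x else 0)) / R.card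
termination_by R.card

theorem f_eq (T : ι → ι → ℝ) (R : Finset ι) (x : ι) :
    R.card * f T R x = ∑ h ∈ R, Ex (fun y => T y h) (R.erase h)
      (fun S => if S = ∅ then (if x = h then 1 else 0) else f T S x) := by
  rcases R.eq_empty_or_nonempty with rfl | hne
  · simp
  rw [f]
  have h : (R.card : ℝ) ≠ 0 := by exact_mod_cast hne.card_pos.ne'
  rw [mul_div_cancel₀ _ h]
  apply Finset.sum_congr rfl
  intro y hy
  apply Ex_congr (fun _ _ => rfl)
  intro B hB
  have : B.card < R.card := lt_of_le_of_lt (Finset.card_le_card hB) (Finset.card_erase_lt_of_mem hy)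
  simp [this]

theorem f_congr {T T' : ι → ι → ℝ} {R : Finset ι} {x : ι}
    (hT : ∀ a ∈ R, ∀ b ∈ R, a ≠ b → T a b = T' a b) : f T R x = f T' R x := by
  induction' hk : R.card using Nat.strong_induction_on with k ih generalizing R
  rcases R.eq_empty_or_nonempty with rfl | hne
  · rw [f, f]; simp
  have h : (R.card : ℝ) ≠ 0 := by exact_mod_cast hne.card_pos.ne'
  apply mul_left_cancel₀ h
  rw [f_eq, f_eq]
  apply Finset.sum_congr rfl
  intro y hy
  apply Ex_congr
  · intro z hz
    exact hT z (Finset.mem_of_mem_erase hz) y hy (Finset.ne_of_mem_erase hz)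
  · intro B hB
    have hBS : B ⊆ R := hB.trans (Finset.erase_subset _ _)
    have := ih B.card (hk ▸ lt_of_le_of_lt (Finset.card_le_card hB)
      (Finset.card_erase_lt_of_mem hy)) (R := B)
      (fun x hx z hz => hT x (hBS hx) z (hBS hz)) rfl
    simp only [this]

theorem f_notMem {T : ι → ι → ℝ} {R : Finset ι} {x : ι} (hx : x ∉ R) : f T R x = 0 := by
  induction' hk : R.card using Nat.strong_induction_on with k ih generalizing R
  rcases R.eq_empty_or_nonempty with rfl | hne
  · rw [f]; simp
  have h : (R.card : ℝ) ≠ 0 := by exact_mod_cast hne.card_pos.ne'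
  apply mul_left_cancel₀ h
  rw [f_eq, mul_zero]
  apply Finset.sum_eq_zero
  intro y hy
  have hxy : x ≠ y := fun e => hx (e ▸ hy)
  refine Eq.trans (Ex_congr (fun _ _ => rfl) (φ' := fun _ => 0) ?_) (Ex_const _ _ 0)
  intro B hB
  have := ih B.card (hk ▸ lt_of_le_of_lt (Finset.card_le_card hB)
      (Finset.card_erase_lt_of_mem hy)) (R := B)
      (fun h => hx (Finset.mem_of_mem_erase (hB h))) rfl
  simp [this, hxy]

theorem f_insert {T : ι → ι → ℝ} {S : Finset ι} {u : ι} (hu : u ∉ S)
    (hT : ∀ y ∈ S, T y u = 1 - T u y) : f T (insert u S) u = g T (T u) S := by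
  induction' hk : S.card using Nat.strong_induction_on with k ih generalizing S
  have h : (((insert u S).card : ℝ)) ≠ 0 := by
    rw [Finset.card_insert_of_notMem hu]; positivity
  apply mul_left_cancel₀ h
  have hg := g_eq T (T u) S
  rw [f_eq, Finset.card_insert_of_notMem hu]
  push_cast
  rw [hg, Finset.sum_insert hu, Finset.erase_insert hu]
  congr 1
  · have : Ex (fun y => T y u) S
        (fun S => if S = ∅ then (if u = u then 1 else 0) else f T S u) =
        Ex (fun y => T y u) S (fun S => if S = ∅ then (1 : ℝ) else 0) := by
      apply Ex_congr (fun _ _ => rfl)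
      intro B hB
      simp [f_notMem (T := T) (fun h => hu (hB h))]
    rw [this, Ex_isEmpty, one_mul]
    apply Finset.prod_congr rfl
    intro x hx
    rw [hT x hx]; ring
  · apply Finset.sum_congr rfl
    intro y hy
    have hyu : u ≠ y := fun e => hu (e ▸ hy)
    have huS : u ∉ S.erase y := fun h => hu (Finset.mem_of_mem_erase h)
    rw [Finset.erase_insert_of_ne hyu, Ex_insert huS]
    have e1 : Ex (fun z => T z y) (S.erase y)
        (fun B => if insert u B = ∅ then (if u = y then 1 else 0) else f T (insert u B) u) =
        Ex (fun z => T z y) (S.erase y) (g T (T u)) := by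
      apply Ex_congr (fun _ _ => rfl)
      intro B hB
      have := ih B.card (hk ▸ lt_of_le_of_lt (Finset.card_le_card hB)
        (Finset.card_erase_lt_of_mem hy)) (S := B) (fun h => huS (hB h))
        (fun z hz => hT z (Finset.mem_of_mem_erase (hB hz))) rfl
      simp [this]
    have e2 : Ex (fun z => T z y) (S.erase y)
        (fun B => if B = ∅ then (if u = y then 1 else 0) else f T B u) = 0 := by
      refine Eq.trans (Ex_congr (fun _ _ => rfl) (φ' := fun _ => 0) ?_) (Ex_const _ _ 0)
      intro B hB
      simp [f_notMem (T := T) (fun h => huS (hB h)), hyu]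
    rw [e1, e2]; ring

/-- `T` with the probability that `a` beats `b` set to `t`. -/
def setPair (T : ι → ι → ℝ) (a b : ι) (t : ℝ) (i j : ι) : ℝ :=
  if i = a ∧ j = b then t else if i = b ∧ j = a then 1 - t else T i j

theorem setPair_right {T : ι → ι → ℝ} {a b : ι} (t : ℝ) {i j : ι} (h1 : j ≠ a) (h2 : j ≠ b) :
    setPair T a b t i j = T i j := by
  simp [setPair, h1, h2]

theorem setPair_left {T : ι → ι → ℝ} {a b : ι} (t : ℝ) {i j : ι} (h1 : i ≠ a) (h2 : i ≠ b) :
    setPair T a b t i j = T i j := by
  simp [setPair, h1, h2]

theorem setPair_ab {T : ι → ι → ℝ} {a b : ι} (t : ℝ) : setPair T a b t a b = t := by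
  simp [setPair]

theorem setPair_ba {T : ι → ι → ℝ} {a b : ι} (hab : a ≠ b) (t : ℝ) :
    setPair T a b t b a = 1 - t := by
  simp [setPair, Ne.symm hab]

theorem f_setPair {T : ι → ι → ℝ} {a b : ι} (t : ℝ) {S : Finset ι} (h : a ∉ S ∨ b ∉ S) (x : ι) :
    f (setPair T a b t) S x = f T S x := by
  apply f_congr
  intro i hi j hj _
  unfold setPair
  rw [if_neg, if_neg]
  · rintro ⟨rfl, rfl⟩
    rcases h with h | h
    · exact h hj
    · exact h hi
  · rintro ⟨rfl, rfl⟩
    rcases h with h | h
    · exact h hi
    · exact h hj

theorem f_affine (T : ι → ι → ℝ) {a b : ι} (hab : a ≠ b) (t : ℝ) (R : Finset ι) (x : ι) :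
    f (setPair T a b t) R x =
      t * f (setPair T a b 1) R x + (1 - t) * f (setPair T a b 0) R x := by
  induction' hk : R.card using Nat.strong_induction_on with k ih generalizing R
  by_cases hR : a ∈ R ∧ b ∈ R
  swap
  · have h : a ∉ R ∨ b ∉ R := by tauto
    rw [f_setPair t h, f_setPair 1 h, f_setPair 0 h]; ring
  obtain ⟨ha, hb⟩ := hR
  have hne : R.Nonempty := ⟨a, ha⟩
  have h : (R.card : ℝ) ≠ 0 := by exact_mod_cast hne.card_pos.ne'
  apply mul_left_cancel₀ h
  have e : (R.card : ℝ) * (t * f (setPair T a b 1) R x + (1 - t) * f (setPair T a b 0) R x) =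
      t * (R.card * f (setPair T a b 1) R x) + (1 - t) * (R.card * f (setPair T a b 0) R x) := by
    ring
  rw [e, f_eq, f_eq, f_eq, Finset.mul_sum, Finset.mul_sum, ← Finset.sum_add_distrib]
  apply Finset.sum_congr rfl
  intro y hy
  by_cases hya : y = a
  · subst hya
    have hbm : b ∈ R.erase y := Finset.mem_erase.mpr ⟨Ne.symm hab, hb⟩
    have key : ∀ t : ℝ, Ex (fun z => setPair T y b t z y) (R.erase y)
        (fun S => if S = ∅ then (if x = y then 1 else 0) else f (setPair T y b t) S x) =
        (1 - t) * Ex (fun z => T z y) ((R.erase y).erase b)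
          (fun B => f T (insert b B) x) +
        t * Ex (fun z => T z y) ((R.erase y).erase b)
          (fun S => if S = ∅ then (if x = y then 1 else 0) else f T S x) := by
      intro t
      rw [Ex_mem hbm, setPair_ba hab]
      congr 1
      · congr 1
        apply Ex_congr
        · intro z hz
          rw [Finset.mem_erase, Finset.mem_erase] at hz
          exact setPair_left t hz.2.1 hz.1
        · intro B hB
          have : y ∉ insert b B := by
            rw [Finset.mem_insert]; rintro (h | h)
            · exact hab h
            · exact (Finset.mem_erase.mp (Finset.mem_of_mem_erase (hB h))).1 rfl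
          simp [f_setPair t (Or.inl this)]
      · have : 1 - (1 - t) = t := by ring
        rw [this]
        congr 1
        apply Ex_congr
        · intro z hz
          rw [Finset.mem_erase, Finset.mem_erase] at hz
          exact setPair_left t hz.2.1 hz.1
        · intro B hB
          have : y ∉ B := fun h => (Finset.mem_erase.mp (Finset.mem_of_mem_erase (hB h))).1 rfl
          simp [f_setPair t (Or.inl this)]
    rw [key t, key 1, key 0]; ring
  by_cases hyb : y = b
  · subst hyb
    have ham : a ∈ R.erase y := Finset.mem_erase.mpr ⟨hab, ha⟩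
    have key : ∀ t : ℝ, Ex (fun z => setPair T a y t z y) (R.erase y)
        (fun S => if S = ∅ then (if x = y then 1 else 0) else f (setPair T a y t) S x) =
        t * Ex (fun z => T z y) ((R.erase y).erase a)
          (fun B => f T (insert a B) x) +
        (1 - t) * Ex (fun z => T z y) ((R.erase y).erase a)
          (fun S => if S = ∅ then (if x = y then 1 else 0) else f T S x) := by
      intro t
      rw [Ex_mem ham, setPair_ab]
      congr 1
      · congr 1
        apply Ex_congr
        · intro z hz
          rw [Finset.mem_erase, Finset.mem_erase] at hz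
          exact setPair_left t hz.1 hz.2.1
        · intro B hB
          have : y ∉ insert a B := by
            rw [Finset.mem_insert]; rintro (h | h)
            · exact hab h.symm
            · exact (Finset.mem_erase.mp (Finset.mem_of_mem_erase (hB h))).1 rfl
          simp [f_setPair t (Or.inr this)]
      · congr 1
        apply Ex_congr
        · intro z hz
          rw [Finset.mem_erase, Finset.mem_erase] at hz
          exact setPair_left t hz.1 hz.2.1
        · intro B hB
          have : y ∉ B := fun h => (Finset.mem_erase.mp (Finset.mem_of_mem_erase (hB h))).1 rfl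
          simp [f_setPair t (Or.inr this)]
    rw [key t, key 1, key 0]; ring
  · have key : ∀ t : ℝ, Ex (fun z => setPair T a b t z y) (R.erase y)
        (fun S => if S = ∅ then (if x = y then 1 else 0) else f (setPair T a b t) S x) =
        Ex (fun z => T z y) (R.erase y)
        (fun S => if S = ∅ then (if x = y then 1 else 0) else f (setPair T a b t) S x) := by
      intro t
      apply Ex_congr _ (fun _ _ => rfl)
      intro z _
      exact setPair_right t hya hyb
    rw [key t, key 1, key 0, ← Ex_mul, ← Ex_mul, ← Ex_add]
    apply Ex_congr (fun _ _ => rfl)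
    intro B hB
    have := ih B.card (hk ▸ lt_of_le_of_lt (Finset.card_le_card hB)
      (Finset.card_erase_lt_of_mem hy)) B rfl
    by_cases hB0 : B = ∅
    · simp only [hB0, if_true]; ring
    · simp only [hB0, if_false]; exact this

/-- complementary match probabilities -/
def Comp (T : ι → ι → ℝ) : Prop := ∀ i j, i ≠ j → T i j + T j i = 1

theorem Comp_setPair {T : ι → ι → ℝ} (hT : Comp T) {a b : ι} (hab : a ≠ b) (t : ℝ) :
    Comp (setPair T a b t) := by
  intro i j hij
  by_cases h1 : i = a ∧ j = b
  · obtain ⟨rfl, rfl⟩ := h1
    rw [setPair_ab, setPair_ba hab]; ring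
  by_cases h2 : i = b ∧ j = a
  · obtain ⟨rfl, rfl⟩ := h2
    rw [setPair_ab, setPair_ba hab]; ring
  · have h3 : ¬ (j = a ∧ i = b) := fun h => h2 ⟨h.2, h.1⟩
    have h4 : ¬ (j = b ∧ i = a) := fun h => h1 ⟨h.2, h.1⟩
    simp only [setPair, h1, h2, h3, h4, if_false]
    exact hT i j hij

/-- joint selection probability of `u` and `v` -/
noncomputable def F (T : ι → ι → ℝ) (u v : ι) (R : Finset ι) : ℝ := f T R u + f T R v

/-- value after the round of king `h` when the set of winners against `h` is `S` -/
noncomputable def Phi (T : ι → ι → ℝ) (u v h : ι) (S : Finset ι) : ℝ :=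
  if S = ∅ then (if u = h then 1 else 0) + (if v = h then 1 else 0) else F T u v S

theorem F_eq (T : ι → ι → ℝ) (u v : ι) (R : Finset ι) :
    R.card * F T u v R = ∑ h ∈ R, Ex (fun y => T y h) (R.erase h) (Phi T u v h) := by
  unfold F
  rw [mul_add, f_eq, f_eq, ← Finset.sum_add_distrib]
  apply Finset.sum_congr rfl
  intro h _
  rw [← Ex_add]
  apply Ex_congr (fun _ _ => rfl)
  intro B _
  unfold Phi F
  split_ifs <;> simp

theorem Phi_comm (T : ι → ι → ℝ) (u v h : ι) : Phi T u v h = Phi T v u h := by
  funext S
  unfold Phi F
  split_ifs <;> ring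

theorem term_u {T : ι → ι → ℝ} (hT : Comp T) {u v : ι} {W : Finset ι} (huv : u ≠ v)
    (hu : u ∉ W) (hv : v ∉ W) :
    Ex (fun y => T y u) (insert v W) (Phi T u v u) =
      T v u * Eh T W (T v) (T u) + (1 - T v u) * ∏ x ∈ W, T u x := by
  rw [Ex_insert hv]
  have hne : ∀ x ∈ W, x ≠ u := fun x hx e => hu (e ▸ hx)
  have hne' : ∀ x ∈ W, x ≠ v := fun x hx e => hv (e ▸ hx)
  congr 2
  · unfold Eh
    apply Ex_congr
    · intro x hx; have := hT x u (hne x hx); linarith
    · intro B hB
      have h1 : u ∉ insert v B := by
        rw [Finset.mem_insert]; rintro (h | h)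
        · exact huv h
        · exact hu (hB h)
      have h2 : v ∉ B := fun h => hv (hB h)
      have h3 : f T (insert v B) v = g T (T v) B :=
        f_insert h2 (fun y hy => by have := hT y v (hne' y (hB hy)); linarith)
      unfold Phi F
      rw [if_neg (Finset.insert_ne_empty v B), f_notMem h1, h3, zero_add]
  · have : Ex (fun y => T y u) W (Phi T u v u) =
        Ex (fun y => T y u) W (fun S => if S = ∅ then (1 : ℝ) else 0) := by
      apply Ex_congr (fun _ _ => rfl)
      intro B hB
      unfold Phi F
      rw [f_notMem (fun h => hu (hB h)), f_notMem (fun h => hv (hB h))]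
      simp [Ne.symm huv]
    rw [this, Ex_isEmpty, one_mul]
    apply Finset.prod_congr rfl
    intro x hx; have := hT x u (hne x hx); linarith

theorem term_v {T : ι → ι → ℝ} (hT : Comp T) {u v : ι} {W : Finset ι} (huv : u ≠ v)
    (hu : u ∉ W) (hv : v ∉ W) :
    Ex (fun y => T y v) (insert u W) (Phi T u v v) =
      T u v * Eh T W (T u) (T v) + (1 - T u v) * ∏ x ∈ W, T v x := by
  rw [Phi_comm]
  exact term_u hT (Ne.symm huv) hv hu

/-- slope -/
noncomputable def D (T : ι → ι → ℝ) (u v : ι) (R : Finset ι) : ℝ :=
  F (setPair T u v 1) u v R - F (setPair T u v 0) u v R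

theorem Eh_setPair {T : ι → ι → ℝ} {u v : ι} {W : Finset ι} (hu : u ∉ W) (hv : v ∉ W) (t : ℝ)
    (q r q' r' : ι → ℝ) (hq : ∀ x ∈ W, q x = q' x) (hr : ∀ x ∈ W, r x = r' x) :
    Eh (setPair T u v t) W q r = Eh T W q' r' := by
  unfold Eh
  apply Ex_congr
  · intro x hx; rw [hr x hx]
  · intro B hB
    apply g_congr
    · intro x hx y hy _
      exact setPair_left t (fun e => hu (e ▸ hB hx)) (fun e => hv (e ▸ hB hx))
    · intro x hx; exact hq x (hB hx)

theorem D_rec {T : ι → ι → ℝ} (hT : Comp T) {u v : ι} {W : Finset ι} (huv : u ≠ v)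
    (hu : u ∉ W) (hv : v ∉ W) :
    (W.card + 2) * D T u v (insert u (insert v W)) =
      (Eh T W (T u) (T v) - ∏ x ∈ W, T v x) - (Eh T W (T v) (T u) - ∏ x ∈ W, T u x) +
      ∑ w ∈ W, T u w * T v w *
        Ex (fun y => T y w) (W.erase w) (fun S => D T u v (insert u (insert v S))) := by
  have hne : ∀ x ∈ W, x ≠ u := fun x hx e => hu (e ▸ hx)
  have hne' : ∀ x ∈ W, x ≠ v := fun x hx e => hv (e ▸ hx)
  have huW : u ∉ insert v W := by
    rw [Finset.mem_insert]; rintro (h | h); exacts [huv h, hu h]
  have hvW : v ∉ insert u W := by
    rw [Finset.mem_insert]; rintro (h | h); exacts [huv h.symm, hv h]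
  -- formula for each value t
  have key : ∀ t : ℝ, ((W.card : ℝ) + 2) * F (setPair T u v t) u v (insert u (insert v W)) =
      ((1 - t) * Eh T W (T v) (T u) + t * ∏ x ∈ W, T u x) +
      (t * Eh T W (T u) (T v) + (1 - t) * ∏ x ∈ W, T v x) +
      ∑ w ∈ W, (T u w * T v w *
        Ex (fun y => T y w) (W.erase w) (fun S => F (setPair T u v t) u v (insert u (insert v S))) +
        (T u w * (1 - T v w) * Ex (fun y => T y w) (W.erase w) (fun S => F T u v (insert u S)) +
        (1 - T u w) * T v w * Ex (fun y => T y w) (W.erase w) (fun S => F T u v (insert v S)) +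
        (1 - T u w) * (1 - T v w) * Ex (fun y => T y w) (W.erase w) (Phi T u v w))) := by
    intro t
    have hc : (((insert u (insert v W)).card : ℕ) : ℝ) = W.card + 2 := by
      rw [Finset.card_insert_of_notMem huW, Finset.card_insert_of_notMem hv]; push_cast; ring
    rw [← hc, F_eq, Finset.sum_insert huW, Finset.sum_insert hv, Finset.erase_insert huW,
      ← add_assoc]
    have hCt := Comp_setPair hT huv t
    congr 1
    · congr 1
      · rw [term_u hCt huv hu hv, setPair_ba huv]
        have : 1 - (1 - t) = t := by ring
        rw [this]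
        congr 1
        · congr 1
          exact Eh_setPair hu hv t _ _ _ _
            (fun x hx => setPair_right t (hne x hx) (hne' x hx))
            (fun x hx => setPair_right t (hne x hx) (hne' x hx))
        · congr 1
          exact Finset.prod_congr rfl (fun x hx => setPair_right t (hne x hx) (hne' x hx))
      · have e : (insert u (insert v W)).erase v = insert u W := by
          rw [Finset.insert_comm, Finset.erase_insert hvW]
        rw [e, term_v hCt huv hu hv, setPair_ab]
        congr 1
        · congr 1
          exact Eh_setPair hu hv t _ _ _ _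
            (fun x hx => setPair_right t (hne x hx) (hne' x hx))
            (fun x hx => setPair_right t (hne x hx) (hne' x hx))
        · congr 1
          exact Finset.prod_congr rfl (fun x hx => setPair_right t (hne x hx) (hne' x hx))
    · apply Finset.sum_congr rfl
      intro w hw
      have hwu := hne w hw
      have hwv := hne' w hw
      have e : (insert u (insert v W)).erase w = insert u (insert v (W.erase w)) := by
        rw [Finset.erase_insert_of_ne (Ne.symm hwu), Finset.erase_insert_of_ne (Ne.symm hwv)]
      have hv' : v ∉ W.erase w := fun h => hv (Finset.mem_of_mem_erase h)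
      have hu'' : u ∉ W.erase w := fun h => hu (Finset.mem_of_mem_erase h)
      have hu' : u ∉ insert v (W.erase w) := by
        rw [Finset.mem_insert]; rintro (h | h); exacts [huv h, hu'' h]
      have hTw : ∀ φ : Finset ι → ℝ, ∀ A, Ex (fun y => setPair T u v t y w) A φ =
          Ex (fun y => T y w) A φ := by
        intro φ A
        exact Ex_congr (fun x _ => setPair_right t hwu hwv) (fun _ _ => rfl)
      rw [e, hTw, Ex_insert hu', Ex_insert hv', Ex_insert hv']
      have e1 : Ex (fun y => T y w) (W.erase w)
          (fun B => Phi (setPair T u v t) u v w (insert u (insert v B))) =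
          Ex (fun y => T y w) (W.erase w)
          (fun S => F (setPair T u v t) u v (insert u (insert v S))) := by
        apply Ex_congr (fun _ _ => rfl)
        intro B _
        unfold Phi
        rw [if_neg (Finset.insert_ne_empty _ _)]
      have e2 : Ex (fun y => T y w) (W.erase w)
          (fun B => Phi (setPair T u v t) u v w (insert u B)) =
          Ex (fun y => T y w) (W.erase w) (fun S => F T u v (insert u S)) := by
        apply Ex_congr (fun _ _ => rfl)
        intro B hB
        unfold Phi F
        have : v ∉ insert u B := by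
          rw [Finset.mem_insert]; rintro (h | h); exacts [huv h.symm, hv' (hB h)]
        rw [if_neg (Finset.insert_ne_empty _ _), f_setPair t (Or.inr this),
          f_setPair t (Or.inr this)]
      have e3 : Ex (fun y => T y w) (W.erase w)
          (fun B => Phi (setPair T u v t) u v w (insert v B)) =
          Ex (fun y => T y w) (W.erase w) (fun S => F T u v (insert v S)) := by
        apply Ex_congr (fun _ _ => rfl)
        intro B hB
        unfold Phi F
        have : u ∉ insert v B := by
          rw [Finset.mem_insert]; rintro (h | h); exacts [huv h, hu'' (hB h)]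
        rw [if_neg (Finset.insert_ne_empty _ _), f_setPair t (Or.inl this),
          f_setPair t (Or.inl this)]
      have e4 : Ex (fun y => T y w) (W.erase w) (Phi (setPair T u v t) u v w) =
          Ex (fun y => T y w) (W.erase w) (Phi T u v w) := by
        apply Ex_congr (fun _ _ => rfl)
        intro B hB
        unfold Phi F
        have : u ∉ B := fun h => hu'' (hB h)
        rw [f_setPair t (Or.inl this), f_setPair t (Or.inl this)]
      rw [e1, e2, e3, e4]
      ring
  unfold D
  rw [mul_sub, key 1, key 0]
  have hs : ∀ w, Ex (fun y => T y w) (W.erase w) (fun S =>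
      F (setPair T u v 1) u v (insert u (insert v S)) -
      F (setPair T u v 0) u v (insert u (insert v S))) =
      Ex (fun y => T y w) (W.erase w) (fun S => F (setPair T u v 1) u v (insert u (insert v S))) -
      Ex (fun y => T y w) (W.erase w) (fun S => F (setPair T u v 0) u v (insert u (insert v S))) :=
    fun w => Ex_sub _ _ _ _
  simp only [hs, mul_sub, Finset.sum_add_distrib, Finset.sum_sub_distrib]
  ring

set_option linter.unusedSectionVars false
section bound
variable {T : ι → ι → ℝ} {al be : ℝ} (hab : al + be = 1) (hbe : 0 ≤ be) (hle : be ≤ al)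
  (hP : PR T be al) (hT : Comp T)
include hab hbe hle hP hT

theorem D_pair {u v : ι} (huv : u ≠ v) : D T u v (insert u (insert v ∅)) = 0 := by
  have h := D_rec hT (W := ∅) huv (by simp) (by simp)
  simp only [Finset.card_empty, Eh, Ex_empty, g_empty, Finset.prod_empty, Finset.sum_empty] at h
  norm_num at h
  simpa using h

omit hab hbe hle hP in
theorem D_triple {u v w : ι} (huv : u ≠ v) (huw : u ≠ w) (hvw : v ≠ w) :
    3 * D T u v (insert u (insert v {w})) = T u w - T v w + T u w * T v w *
      D T u v (insert u (insert v ∅)) := by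
  have h := D_rec hT (W := {w}) huv (by simpa using huw) (by simpa using hvw)
  have hE : ∀ q r : ι → ℝ, Eh T {w} q r = (1 - r w) * q w + r w := by
    intro q r
    have : ({w} : Finset ι) = insert w ∅ := rfl
    unfold Eh
    rw [this, Ex_insert (by simp), Ex_empty, Ex_empty, g_empty, ← this, g_singleton]
    ring
  rw [hE, hE, Finset.prod_singleton, Finset.prod_singleton, Finset.sum_singleton,
    Finset.erase_singleton, Ex_empty, Finset.card_singleton] at h
  push_cast at h
  linarith

theorem D_le {u v : ι} (huv : u ≠ v) {W : Finset ι} (hu : u ∉ W) (hv : v ∉ W) :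
    D T u v (insert u (insert v W)) ≤ (al - be) / 3 := by
  induction' hk : W.card using Nat.strong_induction_on with k ih generalizing W
  have hal1 : al ≤ 1 := by linarith
  have hne : ∀ x ∈ W, x ≠ u := fun x hx e => hu (e ▸ hx)
  have hne' : ∀ x ∈ W, x ≠ v := fun x hx e => hv (e ▸ hx)
  rcases Nat.lt_or_ge k 2 with h2 | h2
  · interval_cases k
    · rw [Finset.card_eq_zero.mp hk, D_pair hab hbe hle hP hT huv]; linarith
    · obtain ⟨w, rfl⟩ := Finset.card_eq_one.mp hk
      have huw : u ≠ w := fun e => hu (by simp [e])
      have hvw : v ≠ w := fun e => hv (by simp [e])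
      have h := D_triple hT huv huw hvw
      rw [D_pair hab hbe hle hP hT huv] at h
      have h3 := (hP u w huw).2
      have h4 := (hP v w hvw).1
      linarith
  · have hrec := D_rec hT huv hu hv
    set q : ι → ℝ := fun x => if x ∈ W then T u x else be with hq
    set r : ι → ℝ := fun x => if x ∈ W then T v x else be with hr
    have hqb : ∀ x, be ≤ q x ∧ q x ≤ al := by
      intro x; simp only [hq]; split_ifs with h
      · exact hP u x (Ne.symm (hne x h))
      · exact ⟨le_refl _, hle⟩
    have hrb : ∀ x, be ≤ r x ∧ r x ≤ al := by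
      intro x; simp only [hr]; split_ifs with h
      · exact hP v x (Ne.symm (hne' x h))
      · exact ⟨le_refl _, hle⟩
    have hqe : ∀ x ∈ W, T u x = q x := fun x hx => by simp [hq, hx]
    have hre : ∀ x ∈ W, T v x = r x := fun x hx => by simp [hr, hx]
    have hstar := star_ineq hab hbe hle hP (by omega : 2 ≤ W.card) hqb hrb
    have e1 : Eh T W (T u) (T v) = Eh T W q r := by
      unfold Eh
      exact Ex_congr (fun x hx => by rw [hre x hx])
        (fun B hB => g_congr (fun _ _ _ _ _ => rfl) (fun x hx => hqe x (hB hx)))
    have e2 : Eh T W (T v) (T u) = Eh T W r q := by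
      unfold Eh
      exact Ex_congr (fun x hx => by rw [hqe x hx])
        (fun B hB => g_congr (fun _ _ _ _ _ => rfl) (fun x hx => hre x (hB hx)))
    have e3 : ∏ x ∈ W, T u x = ∏ x ∈ W, q x := Finset.prod_congr rfl hqe
    have e4 : ∏ x ∈ W, T v x = ∏ x ∈ W, r x := Finset.prod_congr rfl hre
    rw [e1, e2, e3, e4] at hrec
    have hsum : ∑ w ∈ W, T u w * T v w *
        Ex (fun y => T y w) (W.erase w) (fun S => D T u v (insert u (insert v S))) ≤
        (al - be) / 3 * ∑ x ∈ W, q x * r x := by
      rw [Finset.mul_sum]
      apply Finset.sum_le_sum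
      intro w hw
      have hE : Ex (fun y => T y w) (W.erase w) (fun S => D T u v (insert u (insert v S))) ≤
          (al - be) / 3 := by
        apply Ex_le_const
        · intro x hx
          exact hbe.trans (hP x w (Finset.ne_of_mem_erase hx)).1
        · intro x hx
          exact ((hP x w (Finset.ne_of_mem_erase hx)).2).trans hal1
        · intro B hB
          exact ih B.card (hk ▸ lt_of_le_of_lt (Finset.card_le_card hB)
            (Finset.card_erase_lt_of_mem hw)) (fun h => hu (Finset.mem_of_mem_erase (hB h)))
            (fun h => hv (Finset.mem_of_mem_erase (hB h))) rfl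
      rw [hqe w hw, hre w hw]
      have h0 : 0 ≤ q w * r w := mul_nonneg (by linarith [(hqb w).1]) (by linarith [(hrb w).1])
      have := mul_le_mul_of_nonneg_left hE h0
      linarith
    have h5 : ((W.card : ℝ) + 2) * D T u v (insert u (insert v W)) ≤
        (W.card + 2) * ((al - be) / 3) := by
      rw [hrec]; linarith
    exact le_of_mul_le_mul_left h5 (by positivity)

theorem D_abs_le {u v : ι} (huv : u ≠ v) {W : Finset ι} (hu : u ∉ W) (hv : v ∉ W) :
    |D T u v (insert u (insert v W))| ≤ (al - be) / 3 := by
  have h1 := D_le hab hbe hle hP hT huv hu hv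
  have h2 := D_le hab hbe hle hP hT (Ne.symm huv) hv hu
  have e : D T v u (insert v (insert u W)) = - D T u v (insert u (insert v W)) := by
    have s1 : setPair T v u 1 = setPair T u v 0 := by
      funext i j; unfold setPair
      split_ifs with a b b <;> first | rfl | skip
      · exact absurd (a.1.symm.trans b.1) (Ne.symm huv)
      · norm_num
      · norm_num
    have s2 : setPair T v u 0 = setPair T u v 1 := by
      funext i j; unfold setPair
      split_ifs with a b b <;> first | rfl | skip
      · exact absurd (a.1.symm.trans b.1) (Ne.symm huv)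
      · norm_num
      · norm_num
    unfold D F
    rw [s1, s2, Finset.insert_comm]
    ring
  rw [e] at h2
  exact abs_le.mpr ⟨by linarith, h1⟩

end bound

end Pool.Agent.R19.KotH
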